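import Pool.Agent.Lib.MP_d48993_lc.AE.Rem.Defs
import Pool.Agent.Lib.MP_d48993_lc.AE.Node.Decc
import Pool.Agent.Lib.MP_d48993_lc.Step2c

/-!
# Part R: the steps are decidable
-/

set_option autoImplicit false

namespace Pool.Agent.Lib.MP_d48993_lc.Rem

open Node
open Node.Decc (Ent f1 f2 f3 ac_cop cle_cop endd_comp)
open MP_8c048d_lc (Cop)

/-! ## Componentwise initial segments -/

theorem mle_iff (m m' : List (List ℕ)) : Mle m m' ↔ m.length = m'.length ∧
    ∀ i ∈ List.range m.length, m.getD i [] <+: m'.getD i [] := by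
  unfold Mle
  constructor
  · intro h
    refine ⟨h.length_eq, ?_⟩
    induction h with
    | nil => intro i hi; simp at hi
    | @cons a b l l' h1 _ ih =>
      intro i hi
      cases i with
      | zero => exact h1
      | succ i =>
        have hi' : i ∈ List.range l.length := by
          rw [List.mem_range] at hi ⊢
          simpa using hi
        simpa using ih i hi'
  · rintro ⟨h1, h2⟩
    induction m generalizing m' with
    | nil =>
      cases m' with
      | nil => exact List.Forall₂.nil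
      | cons b l => simp at h1
    | cons a l ih =>
      cases m' with
      | nil => simp at h1
      | cons b l' =>
        refine List.Forall₂.cons ?_ (ih l' (by simpa using h1) fun i hi => ?_)
        · simpa using h2 0 (by simp)
        · have := h2 (i + 1) (by
            rw [List.mem_range] at hi ⊢
            simpa using hi)
          simpa using this

variable {α : Type} [Primcodable α]

theorem comp_getD {l : α → List (List ℕ)} {f : α → ℕ} (hl : Computable l) (hf : Computable f) :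
    Computable fun a => (l a).getD (f a) [] :=
  (Primrec.list_getD []).to_comp.comp hl hf

theorem mle_cop {f g : α → List (List ℕ)} (hf : Computable f) (hg : Computable g) :
    Cop (fun a (_ : ℕ → ℕ) => Mle (f a) (g a)) := by
  have h1 : Cop (fun a (_ : ℕ → ℕ) => (f a).length = (g a).length) :=
    Cop.eq (Computable.list_length.comp hf) (Computable.list_length.comp hg)
  have h2 : Cop (fun a (_ : ℕ → ℕ) => ∀ i ∈ List.range (f a).length,
      (f a).getD i [] <+: (g a).getD i []) := by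
    refine Cop.ballL (P := fun (a : α) (i : ℕ) (_ : ℕ → ℕ) =>
      (f a).getD i [] <+: (g a).getD i []) ?_
      (Primrec.list_range.to_comp.comp (Computable.list_length.comp hf))
    exact Cop.isPre (comp_getD (hf.comp Computable.fst) Computable.snd)
      (comp_getD (hg.comp Computable.fst) Computable.snd)
  exact (h1.and h2).congr fun a F => (mle_iff _ _).symm

/-! ## Own states -/

theorem own_iff (z w : St) : (∃ i, 1 ≤ i ∧ w = ow z i) ↔
    w = ow z (w.2.reverse.headD 0) ∧ 1 ≤ w.2.reverse.headD 0 := by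
  constructor
  · rintro ⟨i, h1, rfl⟩
    have : (ow z i).2.reverse.headD 0 = i := by simp [ow]
    rw [this]
    exact ⟨rfl, h1⟩
  · rintro ⟨h1, h2⟩
    exact ⟨_, h2, h1⟩

theorem comp_ow {z : α → St} {i : α → ℕ} (hz : Computable z) (hi : Computable i) :
    Computable fun a => ow (z a) (i a) := by
  have h1 : Computable fun a => (z a).2 ++ [i a] :=
    Computable.list_append.comp (Computable.snd.comp hz)
      (Computable.list_cons.comp hi (Computable.const []))
  exact (Computable.fst.comp hz).pair h1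

theorem comp_lst {w : α → St} (hw : Computable w) :
    Computable fun a => (w a).2.reverse.headD 0 := by
  have h1 : Computable fun a => ((w a).2.reverse.head?).getD 0 :=
    Computable.option_getD (Primrec.list_head?.to_comp.comp
      (Primrec.list_reverse.to_comp.comp (Computable.snd.comp hw))) (Computable.const 0)
  exact h1.of_eq fun a => by rw [List.headD_eq_head?_getD]

theorem le_cop {f g : α → ℕ} (hf : Computable f) (hg : Computable g) :
    Cop (fun a (_ : ℕ → ℕ) => f a ≤ g a) := by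
  have h : PrimrecPred (fun p : ℕ × ℕ => p.1 ≤ p.2) := Primrec.nat_le
  exact (MP_8c048d_lc.Cop.of_computable h.computablePred).comp (f := fun a => (f a, g a))
    (hf.pair hg)

theorem lt_cop {f g : α → ℕ} (hf : Computable f) (hg : Computable g) :
    Cop (fun a (_ : ℕ → ℕ) => f a < g a) := by
  have h : PrimrecPred (fun p : ℕ × ℕ => p.1 < p.2) := Primrec.nat_lt
  exact (MP_8c048d_lc.Cop.of_computable h.computablePred).comp (f := fun a => (f a, g a))
    (hf.pair hg)

theorem at_cop (hC : CodesStatement) :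
    Cop (fun (p : St × Cnd3) (_ : ℕ → ℕ) => At p.1 p.2) := by
  have c2 : Computable fun p : St × Cnd3 => p.2.2 := Computable.snd.comp Computable.snd
  have h1 : Cop (fun (p : St × Cnd3) (_ : ℕ → ℕ) => ∀ e ∈ p.2.2,
      endd o e.2.2 = ow p.1 ((endd o e.2.2).2.reverse.headD 0) ∧
        1 ≤ (endd o e.2.2).2.reverse.headD 0) := by
    refine Cop.ballL (P := fun (p : St × Cnd3) (e : Ent) (_ : ℕ → ℕ) =>
      endd o e.2.2 = ow p.1 ((endd o e.2.2).2.reverse.headD 0) ∧
        1 ≤ (endd o e.2.2).2.reverse.headD 0) ?_ c2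
    have e1 : Computable fun y : (St × Cnd3) × Ent => endd o y.2.2.2 := endd_comp hC f3
    exact (Cop.eq e1 (comp_ow (Computable.fst.comp Computable.fst) (comp_lst e1))).and
      (le_cop (Computable.const 1) (comp_lst e1))
  have h2 : Cop (fun (p : St × Cnd3) (_ : ℕ → ℕ) => ∀ e ∈ p.2.2, ∀ e' ∈ p.2.2,
      endd o e.2.2 = endd o e'.2.2 → e = e') := by
    refine Cop.ballL (P := fun (p : St × Cnd3) (e : Ent) (_ : ℕ → ℕ) => ∀ e' ∈ p.2.2,
      endd o e.2.2 = endd o e'.2.2 → e = e') ?_ c2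
    refine Cop.ballL (P := fun (y : (St × Cnd3) × Ent) (e' : Ent) (_ : ℕ → ℕ) =>
      endd o y.2.2.2 = endd o e'.2.2 → y.2 = e') ?_ (c2.comp Computable.fst)
    refine MP_8c048d_lc.Cop.imp (Cop.eq ?_ (endd_comp hC f3)) (Cop.eq ?_ Computable.snd)
    · exact endd_comp hC (Computable.snd.comp (Computable.snd.comp
        (Computable.snd.comp Computable.fst)))
    · exact Computable.snd.comp Computable.fst
  refine (h1.and h2).congr fun p F => ⟨?_, ?_⟩
  · rintro ⟨a, b⟩
    exact ⟨fun e he => (own_iff _ _).2 (a e he), b⟩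
  · rintro ⟨a, b⟩
    exact ⟨fun e he => (own_iff _ _).1 (a e he), b⟩

theorem cvs_cop (hC : CodesStatement) (hD : DecvStatement) (T : List ℕ → Prop)
    (hT : ComputablePred T) : Cop (fun (c : Cnd3) (_ : ℕ → ℕ) => CVs T c) := by
  let A : Type := Cnd3
  have ac2 : Computable (fun p : A => p.2) := Computable.snd
  have h1 : Cop (fun (p : A) (_ : ℕ → ℕ) => ∃ e ∈ p.2, e.1 = [] ∧ e.2.1 = []) := by
    refine Cop.bexL (P := fun (p : A) (e : Ent) (_ : ℕ → ℕ) => e.1 = [] ∧ e.2.1 = []) ?_ ac2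
    exact MP_8c048d_lc.Cop.and (Cop.eq f1 (Computable.const [])) (Cop.eq f2 (Computable.const []))
  have g0 : Computable (fun p : (A × Ent) × Ent => p.1.2) := Computable.snd.comp Computable.fst
  have g1 : Computable (fun p : (A × Ent) × Ent => p.1.2.1) := Computable.fst.comp g0
  have g2 : Computable (fun p : (A × Ent) × Ent => p.1.2.2.1) :=
    Computable.fst.comp (Computable.snd.comp g0)
  have g3 : Computable (fun p : (A × Ent) × Ent => p.1.2.2.2) :=
    Computable.snd.comp (Computable.snd.comp g0)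
  have h2 : Cop (fun (p : A) (_ : ℕ → ℕ) => ∀ e ∈ p.2, ∀ e' ∈ p.2,
      (e.1 = e'.1 → e = e') ∧ (e.2.1 <+: e'.2.1 ↔ e.1 <+: e'.1) ∧
        (e'.2.1 <+: e.2.2 → e'.1 <+: e.1)) := by
    refine Cop.ballL (P := fun (p : A) (e : Ent) (_ : ℕ → ℕ) => ∀ e' ∈ p.2,
      (e.1 = e'.1 → e = e') ∧ (e.2.1 <+: e'.2.1 ↔ e.1 <+: e'.1) ∧
        (e'.2.1 <+: e.2.2 → e'.1 <+: e.1)) ?_ ac2
    refine Cop.ballL (P := fun (y : A × Ent) (e' : Ent) (_ : ℕ → ℕ) =>
      (y.2.1 = e'.1 → y.2 = e') ∧ (y.2.2.1 <+: e'.2.1 ↔ y.2.1 <+: e'.1) ∧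
        (e'.2.1 <+: y.2.2.2 → e'.1 <+: y.2.1)) ?_ (ac2.comp Computable.fst)
    refine MP_8c048d_lc.Cop.and ?_ (MP_8c048d_lc.Cop.and ?_ ?_)
    · exact MP_8c048d_lc.Cop.imp (Cop.eq g1 f1) (Cop.eq g0 Computable.snd)
    · exact MP_8c048d_lc.Cop.iff (Cop.isPre g2 f2) (Cop.isPre g1 f1)
    · exact MP_8c048d_lc.Cop.imp (Cop.isPre f2 g3) (Cop.isPre f1 g1)
  have h3 : Cop (fun (p : A) (_ : ℕ → ℕ) => ∀ e ∈ p.2, T e.1 ∧ e.2.1 <+: e.2.2 ∧
      Ch o e.2.2 (endd o e.2.2)) := by
    refine Cop.ballL (P := fun (p : A) (e : Ent) (_ : ℕ → ℕ) => T e.1 ∧ e.2.1 <+: e.2.2 ∧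
      Ch o e.2.2 (endd o e.2.2)) ?_ ac2
    refine MP_8c048d_lc.Cop.and ?_ (MP_8c048d_lc.Cop.and ?_ ?_)
    · exact (MP_8c048d_lc.Cop.of_computable hT).comp (f := fun y : A × Ent => y.2.1) f1
    · exact Cop.isPre f2 f3
    · exact (MP_8c048d_lc.Cop.of_computable hC.2.2.2.2.2.2.2.2.1).comp
        (f := fun y : A × Ent => (o, y.2.2.2, endd o y.2.2.2))
        ((Computable.const o).pair (f3.pair (endd_comp hC f3)))
  have h4 : Cop (fun (p : A) (_ : ℕ → ℕ) => ∀ e ∈ p.2, e.1 ≠ [] →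
      ∃ e' ∈ p.2, e'.1 = e.1.dropLast) := by
    refine Cop.ballL (P := fun (p : A) (e : Ent) (_ : ℕ → ℕ) => e.1 ≠ [] →
      ∃ e' ∈ p.2, e'.1 = e.1.dropLast) ?_ ac2
    refine MP_8c048d_lc.Cop.imp (Cop.eq f1 (Computable.const [])).not ?_
    refine Cop.bexL (P := fun (y : A × Ent) (e' : Ent) (_ : ℕ → ℕ) =>
      e'.1 = y.2.1.dropLast) ?_ (ac2.comp Computable.fst)
    exact Cop.eq f1 (comp_dropLast g1)
  have h5 : Cop (fun (p : A) (_ : ℕ → ℕ) => AC (Nd p)) := ac_cop hC hD
  refine (h1.and (h2.and (h3.and (h4.and h5)))).congr fun p F => ?_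
  constructor
  · rintro ⟨⟨e, he, he1, he2⟩, b, c, d, h⟩
    refine ⟨⟨e.2.2, ?_⟩, fun x hx y hy => (b x hx y hy).1, fun x hx => (c x hx).1,
      fun x hx => (c x hx).2, fun x hx y hy => (b x hx y hy).2.1,
      fun x hx y hy => (b x hx y hy).2.2, d, h⟩
    have h9 : e = ([], [], e.2.2) := Prod.ext he1 (Prod.ext he2 rfl)
    rw [← h9]
    exact he
  · rintro ⟨⟨q, hq⟩, b1, b2, b4, b5, b6, b7, b8⟩
    exact ⟨⟨_, hq, rfl, rfl⟩, fun x hx y hy => ⟨b1 x hx y hy, b5 x hx y hy, b6 x hx y hy⟩,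
      fun x hx => ⟨b2 x hx, b4 x hx⟩, b7, b8⟩

theorem cle_cop' (T : List ℕ → Prop) (hT : ComputablePred T) :
    Cop (fun (p : Cnd3 × Cnd3) (_ : ℕ → ℕ) => CLe T p.1 p.2) := by
  have h := cle_cop (fun _ => T) (Step2c.cp_comp hT (f := fun p : ℕ × List ℕ => p.2)
    Computable.snd)
  exact h.comp (f := fun p : Cnd3 × Cnd3 => (0, p.1, p.2))
    ((Computable.const 0).pair (Computable.fst.pair Computable.snd))

theorem comp_bk {f : α → ℕ} (hf : Computable f) : Computable fun a => bk (f a) :=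
  (Primrec.fst.comp (Primrec.unpair.comp (Primrec.snd.comp Primrec.unpair))).to_comp.comp hf

theorem lv_cop {f g : α → St} (hf : Computable f) (hg : Computable g) :
    Cop (fun a (_ : ℕ → ℕ) => Lv (f a) (g a)) := by
  have hadd : Computable fun p : ℕ × ℕ => p.1 + p.2 :=
    (Primrec.nat_add.comp Primrec.fst Primrec.snd).to_comp
  have l1 : Computable fun a => bk (f a).1 + (g a).2.length :=
    hadd.comp (g := fun a => (bk (f a).1, (g a).2.length))
      ((comp_bk (Computable.fst.comp hf)).pair (Computable.list_length.comp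
        (Computable.snd.comp hg)))
  have l2 : Computable fun a => bk (g a).1 + (f a).2.length :=
    hadd.comp (g := fun a => (bk (g a).1, (f a).2.length))
      ((comp_bk (Computable.fst.comp hg)).pair (Computable.list_length.comp
        (Computable.snd.comp hf)))
  have h1 : Cop (fun a (_ : ℕ → ℕ) => Rise (f a) (g a)) := lt_cop l1 l2
  have h2 : Cop (fun a (_ : ℕ → ℕ) => bk (f a).1 + (g a).2.length =
      bk (g a).1 + (f a).2.length) := Cop.eq l1 l2
  have h3 : Cop (fun a (_ : ℕ → ℕ) => (g a).2.head? = (f a).2.head?) :=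
    Cop.eq (Primrec.list_head?.to_comp.comp (Computable.snd.comp hg))
      (Primrec.list_head?.to_comp.comp (Computable.snd.comp hf))
  exact (h1.or (h2.and h3)).congr fun a F => Iff.rfl

theorem clc_cop (hC : CodesStatement) {f : α → ℕ} {g : α → List ℕ} (hf : Computable f)
    (hg : Computable g) : Cop (fun a (_ : ℕ → ℕ) => Clc (f a) (g a)) := by
  have hsrc : Computable src := hC.2.2.2.2.1
  have htgt : Computable tgt := hC.2.2.2.2.2.1
  refine Cop.ballL (P := fun (a : α) (s : ℕ) (_ : ℕ → ℕ) => (tgt s).1 < (tgt (f a)).1 →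
    Lv (src ((g a).headD 0)) (tgt s)) ?_ hg
  refine MP_8c048d_lc.Cop.imp (lt_cop ?_ ?_) (lv_cop ?_ ?_)
  · exact Computable.fst.comp (htgt.comp Computable.snd)
  · exact Computable.fst.comp (htgt.comp (hf.comp Computable.fst))
  · refine hsrc.comp ?_
    have h1 : Computable fun y : α × ℕ => ((g y.1).head?).getD 0 :=
      Computable.option_getD (Primrec.list_head?.to_comp.comp (hg.comp Computable.fst))
        (Computable.const 0)
    exact h1.of_eq fun a => by rw [List.headD_eq_head?_getD]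
  · exact htgt.comp Computable.snd

theorem cert_cop (hC : CodesStatement) {f g : α → List ℕ} (hf : Computable f)
    (hg : Computable g) : Cop (fun a (_ : ℕ → ℕ) => Cert (f a) (g a)) := by
  have hC' := hC
  obtain ⟨-, -, -, -, -, htgt, hAp, hEx, -, -, -⟩ := hC'
  refine Cop.ballL (P := fun (a : α) (s : ℕ) (_ : ℕ → ℕ) => (∃ g ∈ f a,
    (∃ α ∈ Ap g, s ∈ α) ∨ ∃ q ∈ Ex g, s ∈ q.2 ∧ Clc g q.2) ∧
      ∀ g ∈ f a, tgt s ≠ ow (tgt g) 0) ?_ hg
  refine MP_8c048d_lc.Cop.and ?_ ?_
  · refine Cop.bexL (P := fun (y : α × ℕ) (g : ℕ) (_ : ℕ → ℕ) =>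
      (∃ α ∈ Ap g, y.2 ∈ α) ∨ ∃ q ∈ Ex g, y.2 ∈ q.2 ∧ Clc g q.2) ?_ (hf.comp Computable.fst)
    refine MP_8c048d_lc.Cop.or ?_ ?_
    · refine Cop.bexL (P := fun (y : (α × ℕ) × ℕ) (β : List ℕ) (_ : ℕ → ℕ) => y.1.2 ∈ β) ?_
        (hAp.comp Computable.snd)
      exact Cop.mem (Computable.snd.comp (Computable.fst.comp Computable.fst)) Computable.snd
    · refine Cop.bexL (P := fun (y : (α × ℕ) × ℕ) (q : ℕ × List ℕ) (_ : ℕ → ℕ) =>
        y.1.2 ∈ q.2 ∧ Clc y.2 q.2) ?_ (hEx.comp Computable.snd)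
      exact MP_8c048d_lc.Cop.and (Cop.mem (Computable.snd.comp (Computable.fst.comp
        Computable.fst)) (Computable.snd.comp Computable.snd))
        (clc_cop hC (Computable.snd.comp Computable.fst) (Computable.snd.comp Computable.snd))
  · refine Cop.ballL (P := fun (y : α × ℕ) (g : ℕ) (_ : ℕ → ℕ) => tgt y.2 ≠ ow (tgt g) 0) ?_
      (hf.comp Computable.fst)
    exact (Cop.eq (htgt.comp (Computable.snd.comp Computable.fst))
      (comp_ow (htgt.comp Computable.snd) (Computable.const 0))).not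

/-- The steps are decidable. -/
theorem pre_cop (hC : CodesStatement) (hD : DecvStatement) {T : List ℕ → Prop}
    {le : ℕ → List ℕ → List ℕ → Prop} {lam : ℕ} (hT : ComputablePred T)
    (hle : ComputablePred fun p : List ℕ × List ℕ => le (lam + 1) p.1 p.2) :
    Cop (fun (p : Cf × Cf) (_ : ℕ → ℕ) => Pre T le lam p.1 p.2) := by
  have a1 : Computable fun p : Cf × Cf => p.1.1 := Computable.fst.comp Computable.fst
  have a2 : Computable fun p : Cf × Cf => p.1.2.1 :=
    Computable.fst.comp (Computable.snd.comp Computable.fst)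
  have a3 : Computable fun p : Cf × Cf => p.1.2.2 :=
    Computable.snd.comp (Computable.snd.comp Computable.fst)
  have b1 : Computable fun p : Cf × Cf => p.2.1 := Computable.fst.comp Computable.snd
  have b2 : Computable fun p : Cf × Cf => p.2.2.1 :=
    Computable.fst.comp (Computable.snd.comp Computable.snd)
  have b3 : Computable fun p : Cf × Cf => p.2.2.2 :=
    Computable.snd.comp (Computable.snd.comp Computable.snd)
  have h1 : Cop (fun (p : Cf × Cf) (_ : ℕ → ℕ) => p.1.1 <+: p.2.1) := Cop.isPre a1 b1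
  have h2 : Cop (fun (p : Cf × Cf) (_ : ℕ → ℕ) => p.1.1.length < p.2.1.length) :=
    lt_cop (Computable.list_length.comp a1) (Computable.list_length.comp b1)
  have h3 : Cop (fun (p : Cf × Cf) (_ : ℕ → ℕ) => Mle p.1.2.1 p.2.2.1) := mle_cop a2 b2
  have h4 : Cop (fun (p : Cf × Cf) (_ : ℕ → ℕ) => CVs T p.2.2.2) :=
    (cvs_cop hC hD T hT).comp b3
  have h5 : Cop (fun (p : Cf × Cf) (_ : ℕ → ℕ) => CLe T p.1.2.2 p.2.2.2) :=
    (cle_cop' T hT).comp (f := fun p : Cf × Cf => (p.1.2.2, p.2.2.2)) (a3.pair b3)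
  have h6 : Cop (fun (p : Cf × Cf) (_ : ℕ → ℕ) => At (endd o p.2.1) p.2.2.2) :=
    (at_cop hC).comp (f := fun p : Cf × Cf => (endd o p.2.1, p.2.2.2))
      ((endd_comp hC b1).pair b3)
  have h7 : Cop (fun (p : Cf × Cf) (_ : ℕ → ℕ) => ∀ e' ∈ p.2.2.2.2, ∃ e ∈ p.1.2.2.2,
      e.2.2 <+: e'.2.2 ∧ Cert (p.2.1.drop p.1.1.length) (e'.2.2.drop e.2.2.length)) := by
    refine Cop.ballL (P := fun (p : Cf × Cf) (e' : Ent) (_ : ℕ → ℕ) => ∃ e ∈ p.1.2.2.2,
      e.2.2 <+: e'.2.2 ∧ Cert (p.2.1.drop p.1.1.length) (e'.2.2.drop e.2.2.length)) ?_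
      (Computable.snd.comp b3)
    refine Cop.bexL (P := fun (y : (Cf × Cf) × Ent) (e : Ent) (_ : ℕ → ℕ) =>
      e.2.2 <+: y.2.2.2 ∧ Cert (y.1.2.1.drop y.1.1.1.length) (y.2.2.2.drop e.2.2.length)) ?_
      (Computable.snd.comp (a3.comp Computable.fst))
    have g3 : Computable fun y : ((Cf × Cf) × Ent) × Ent => y.1.2.2.2 :=
      Computable.snd.comp (Computable.snd.comp (Computable.snd.comp Computable.fst))
    refine MP_8c048d_lc.Cop.and (Cop.isPre f3 g3) ?_
    refine cert_cop hC ?_ ?_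
    · exact comp_drop (Computable.list_length.comp (a1.comp (Computable.fst.comp
        Computable.fst))) (b1.comp (Computable.fst.comp Computable.fst))
    · exact comp_drop (Computable.list_length.comp f3) g3
  have h8 : Cop (fun (p : Cf × Cf) (_ : ℕ → ℕ) => le (lam + 1) p.1.2.2.1 p.2.2.2.1) :=
    (MP_8c048d_lc.Cop.of_computable hle).comp
      (f := fun p : Cf × Cf => (p.1.2.2.1, p.2.2.2.1))
      ((Computable.fst.comp a3).pair (Computable.fst.comp b3))
  refine (h1.and (h2.and (h3.and (h4.and (h5.and (h6.and (h7.and h8))))))).congr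
    fun p F => ⟨?_, ?_⟩
  · rintro ⟨c1, c2, c3, c4, c5, c6, c7, c8⟩
    exact ⟨c1, c2, c3, c4, c5, c6, c7, c8⟩
  · rintro ⟨c1, c2, c3, c4, c5, c6, c7, c8⟩
    exact ⟨c1, c2, c3, c4, c5, c6, c7, c8⟩

end Pool.Agent.Lib.MP_d48993_lc.Rem
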