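import Pool.Agent.Lib.MP_d48993_lc.AE.Node.ProcDefs

/-!
# Track A of MP_d48993, part R (removal): definitions

Paper: finding 4183 (helper92). The graph of one colour in the limit is given by the predicate
`V` of the valid symbols, the public roots `u` and the blocks `blk`.
-/

set_option autoImplicit false

namespace Pool.Agent.Lib.MP_d48993_lc.Rem

open Node
open MP_8c048d_lc (pre join RecF Sig Clo Cop Del)

/-! ## The graph -/

/-- The roots which occur. -/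
def Rt (V : ℕ → Prop) (u : ℕ → ℕ) (r : ℕ) : Prop := (∃ t, r = u t) ∨ ∃ g, V g ∧ (tgt g).1 = r

/-- The block number of a root. -/
def bk (r : ℕ) : ℕ := r.unpair.2.unpair.1

/-- `v` has a higher level than `x`. -/
def Rise (x v : St) : Prop := bk x.1 + v.2.length < bk v.1 + x.2.length

/-- `v` has the level and the payment of `x`. -/
def Same (x v : St) : Prop := bk x.1 + v.2.length = bk v.1 + x.2.length ∧ v.2.head? = x.2.head?

/-- The level preorder. -/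
def Lv (x v : St) : Prop := Rise x v ∨ Same x v

/-- The graph of one colour, in the limit. -/
structure Gr (V : ℕ → Prop) (u blk : ℕ → ℕ) : Prop where
  upos : ∀ t, 0 < u t
  umono : ∀ t, u t < u (t + 1)
  bstep : ∀ t, blk (t + 1) = blk t ∨ blk (t + 1) = blk t + 1
  bunb : ∀ n, ∃ t, n ≤ blk t
  big : ∀ t, blk t + 2 < sz (u t)
  szm : ∀ t r, Rt V u r → r < u t → sz r ≤ sz (u t)
  edge : ∀ g, V g → (src g).1 < (tgt g).1 ∧ Adm (src g) ∧ Adm (tgt g)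
  ap : ∀ g, V g → ∀ α ∈ Ap g, (∀ s ∈ α, V s) ∧ ∃ i j, Ch (ow (src g) i) α (ow (tgt g) j)
  ex : ∀ g, V g → ∀ p ∈ Ex g, (∀ s ∈ p.2, V s) ∧ ∃ j, Ch (ow (src g) p.1) p.2 (ow (tgt g) j)
  can : ∀ x y t, Adm x → Rt V u x.1 → x.1 < u t → Adm y → y.1 = u t → y.2.length ≤ blk t + 2 →
    ∃ g, V g ∧ src g = x ∧ tgt g = y ∧ Ex g = []
  apc : ∀ g, V g → ∀ α ∈ Ap g, ∀ s ∈ α, (tgt s).1 < (tgt g).1 → Lv (src (α.headD 0)) (tgt s)
  ext : ∀ g, V g → 0 < rk (src g) → ∀ E : List (ℕ × List ℕ), E.Nodup →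
    (∀ p ∈ E, p.1 < sz (src g).1 ∧ (∀ s ∈ p.2, V s) ∧
      ∃ j < sz (tgt g).1, Ch (ow (src g) p.1) p.2 (ow (tgt g) j)) →
    V (sym (src g) (tgt g) (Ap g) E)

/-- A string of the limit. -/
def LV (V : ℕ → Prop) (σ : List ℕ) : Prop := Ch o σ (endd o σ) ∧ ∀ s ∈ σ, V s

/-- `σ` passes the state `x`. -/
def Ps (σ : List ℕ) (x : St) : Prop := ∃ s ∈ σ, tgt s = x

/-- The payment of a state: its first entry. -/
def pyd (x : St) : List ℕ := (Encodable.decode (α := List ℕ) (x.2.headD 0)).getD []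

/-- Consecutive public states of a regular string. -/
structure Lk (blk : ℕ → ℕ) (TB : List ℕ → Prop) (t : ℕ) (x y : St) : Prop where
  lx0 : 1 ≤ x.2.length
  lx : x.2.length ≤ blk t
  ly0 : 1 ≤ y.2.length
  ly : y.2.length ≤ blk (t + 1)
  same : blk (t + 1) = blk t → y.2.length = x.2.length ∧ y.2.headD 0 = x.2.headD 0
  next : blk (t + 1) ≠ blk t → y.2.length + blk t < x.2.length + blk (t + 1) ∨
    (y.2.length + blk t = x.2.length + blk (t + 1) ∧ pyd x <+: pyd y ∧ pyd x ≠ pyd y ∧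
      TB (pyd y))

/-- Regular strings, from the public root number `N`. -/
structure Reg (V : ℕ → Prop) (u blk : ℕ → ℕ) (TB : List ℕ → Prop) (N : ℕ) (σ : List ℕ) : Prop where
  lv : LV V σ
  pass : ∀ t, N ≤ t → u t ≤ (endd o σ).1 → ∃ x, x.1 = u t ∧ Ps σ x
  dep : ∀ t x, N ≤ t → x.1 = u t → Ps σ x → 1 ≤ x.2.length ∧ x.2.length ≤ blk t
  link : ∀ t x y, N ≤ t → x.1 = u t → y.1 = u (t + 1) → Ps σ x → Ps σ y → Lk blk TB t x y
  cln : ∀ t x v, N ≤ t → x.1 = u t → Ps σ x → Ps σ v → x.1 ≤ v.1 → v.1 < u (t + 1) → Lv x v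

/-- The last index of a block. -/
def Lb (blk : ℕ → ℕ) (t : ℕ) : Prop := blk t < blk (t + 1)

/-- The forcing conditions for the driver. -/
def Pc (V : ℕ → Prop) (u blk : ℕ → ℕ) (TB : List ℕ → Prop) (N : ℕ) (σ : List ℕ) : Prop :=
  Reg V u blk TB N σ ∧ ∃ t, N ≤ t ∧ (endd o σ).1 = u t ∧ Lb blk t

/-! ## Conditions -/

/-- The syntactic part of the validity of a condition. -/
structure CVs (T : List ℕ → Prop) (c : Cnd3) : Prop where
  root : ∃ p, (([] : List ℕ), ([] : List ℕ), p) ∈ c.2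
  uniq : ∀ e ∈ c.2, ∀ e' ∈ c.2, e.1 = e'.1 → e = e'
  mem : ∀ e ∈ c.2, T e.1
  stem : ∀ e ∈ c.2, e.2.1 <+: e.2.2 ∧ Ch o e.2.2 (endd o e.2.2)
  emb : ∀ e ∈ c.2, ∀ e' ∈ c.2, (e.2.1 <+: e'.2.1 ↔ e.1 <+: e'.1)
  stemEmb : ∀ e ∈ c.2, ∀ e' ∈ c.2, e'.2.1 <+: e.2.2 → e'.1 <+: e.1
  parent : ∀ e ∈ c.2, e.1 ≠ [] → ∃ e' ∈ c.2, e'.1 = e.1.dropLast
  ac : AC (Nd c)

/-- Valid conditions with regular stems. -/
structure CVr (V : ℕ → Prop) (u blk : ℕ → ℕ) (TB : List ℕ → Prop) (N : ℕ) (T : List ℕ → Prop) (c : Cnd3) : Prop where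
  cvs : CVs T c
  reg : ∀ e ∈ c.2, Reg V u blk TB N e.2.2

/-- All stems end in own states (not number `0`) of `z`. -/
structure At (z : St) (c : Cnd3) : Prop where
  en : ∀ e ∈ c.2, ∃ i, 1 ≤ i ∧ endd o e.2.2 = ow z i
  inj : ∀ e ∈ c.2, ∀ e' ∈ c.2, endd o e.2.2 = endd o e'.2.2 → e = e'

/-- Coned extensions, from `z` (of the root `u t0`) to `z'` (of the root `u t1`). -/
structure Con (u blk : ℕ → ℕ) (TB : List ℕ → Prop) (T : List ℕ → Prop) (Z : ℕ → St) (t0 t1 : ℕ) (c c' : Cnd3) :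
    Prop where
  le : t0 ≤ t1
  cle : CLe T c c'
  atz : At (Z t0) c
  atz' : At (Z t1) c'
  up : ∀ e' ∈ c'.2, ∃ e ∈ c.2, e.2.2 <+: e'.2.2
  rt : ∀ t, t0 ≤ t → t ≤ t1 → (Z t).1 = u t
  lk : ∀ t, t0 ≤ t → t < t1 → Lk blk TB t (Z t) (Z (t + 1))
  way : ∀ e' ∈ c'.2, ∀ t, t0 < t → t ≤ t1 → ∃ i, 1 ≤ i ∧ Ps e'.2.2 (ow (Z t) i)

/-! ## Texts: what is used -/

/-- `le k w w'`: `w'` is a legal continuation of `w` which reopens only levels `≥ k`.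
`R k q` is the move which reopens level `k` with the payment `q`. -/
structure Tx (T Th : List ℕ → Prop) (le : ℕ → List ℕ → List ℕ → Prop) (R : ℕ → List ℕ → ℕ)
    (lam : ℕ) : Prop where
  px : ∀ k w w', le k w w' → w <+: w'
  tr : ∀ k w w' w'', le k w w' → le k w' w'' → le k w w''
  re : ∀ w w' p q, le (lam + 1) (w ++ [R lam p]) w' → p <+: q → p ≠ q → Th q →
    le lam (w ++ [R lam p]) (w' ++ [R lam q])
  nf : ∀ q s ρ, Fact (R lam q) s ρ → ¬ T s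

/-! ## Modules of the graph, in terms of `V` -/

/-- Module CARRY of Node/Proc. -/
def CarryV (V : ℕ → Prop) : Prop :=
  ∀ (σ τ : List ℕ) (L : List (List ℕ)), LV V (σ ++ τ) → (∀ p ∈ L, LV V p) →
    Proc.Pos (endd o σ) L → AC (Proc.Dn L) → ∃ f : List ℕ → List ℕ,
      (∀ p ∈ L, p <+: f p ∧ LV V (f p) ∧ (∀ s ∈ f p, s ∈ p ∨ ∃ g ∈ τ, ∃ α ∈ Ap g, s ∈ α) ∧
        ∀ s ∈ f p, s ∈ p ∨ ∀ g ∈ τ, tgt s ≠ ow (tgt g) 0) ∧
      Proc.Pos (endd o (σ ++ τ)) (L.map f) ∧ AC (Proc.Dn (L.map f))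

/-- Module ACCAN of Node, for public roots. -/
def AccV (V : ℕ → Prop) (u : ℕ → ℕ) : Prop :=
  ∀ (S : List ℕ → Prop) (z : St) (t : ℕ) (X : List (List ℕ × ℕ)), z.1 = u t → AC S → S [] →
    (∀ ν, S ν → LV V ν) → (∀ ν ν', ν <+: ν' → S ν' → S ν) → (∀ ν, S ν → (endd o ν).1 < z.1) →
    (∀ p ∈ X, S p.1 ∧ V p.2 ∧ Ex p.2 = [] ∧ src p.2 = endd o p.1 ∧ ∃ j, tgt p.2 = ow z j) →
    (∀ p ∈ X, ∀ p' ∈ X, tgt p.2 = tgt p'.2 → p = p') →
    AC (fun ν => S ν ∨ ∃ p ∈ X, ν = p.1 ++ [p.2])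

/-! ## The situation -/

/-- Componentwise initial segments. -/
def Mle (m m' : List (List ℕ)) : Prop := List.Forall₂ (· <+: ·) m m'

/-- The base: condition, public state, its number. -/
structure Base (V : ℕ → Prop) (u blk : ℕ → ℕ) (TB : List ℕ → Prop) (N : ℕ) (T : List ℕ → Prop) (cu : Cnd3) (zu : St)
    (tu : ℕ) : Prop where
  cv : CVr V u blk TB N T cu
  atz : At zu cu
  rt : zu.1 = u tu
  lb : Lb blk tu
  dep0 : 1 ≤ zu.2.length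
  dep : zu.2.length + 1 ≤ blk tu

/-- The stems of `c` go through own states of the states `Z t`, up to the root `r`. -/
structure Cng (u blk : ℕ → ℕ) (TB : List ℕ → Prop) (Z : ℕ → St) (tu : ℕ) (cu : Cnd3) (r : ℕ)
    (c : Cnd3) : Prop where
  atz : At (Z tu) cu
  up : ∀ e' ∈ c.2, ∃ e ∈ cu.2, e.2.2 <+: e'.2.2
  rt : ∀ t, tu ≤ t → u t ≤ r → (Z t).1 = u t
  lk : ∀ t, tu ≤ t → u (t + 1) ≤ r → Lk blk TB t (Z t) (Z (t + 1))
  way : ∀ e' ∈ c.2, ∀ t, tu < t → u t ≤ r → ∃ i, 1 ≤ i ∧ Ps e'.2.2 (ow (Z t) i)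

/-- The commands at the base level. -/
structure Fm (V : ℕ → Prop) (u blk : ℕ → ℕ) (TB : List ℕ → Prop) (N : ℕ) (T : List ℕ → Prop)
    (le : ℕ → List ℕ → List ℕ → Prop) (R : ℕ → List ℕ → ℕ) (lam : ℕ) (cu : Cnd3) (tu : ℕ)
    (z : St) (t : ℕ) (k : Cnd3) : Prop where
  bs : Base V u blk TB N T k z t
  cle : CLe T cu k
  con : tu ≤ t ∧ ∃ Z, Cng u blk TB Z tu cu (u t) k
  tx : le lam cu.1 k.1
  lst : ∃ w p, k.1 = w ++ [R lam p]

/-- No exit, no dead fake. -/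
structure NE (V : ℕ → Prop) (u blk : ℕ → ℕ) (TB : List ℕ → Prop) (N : ℕ) (T U : List ℕ → Prop)
    (le : ℕ → List ℕ → List ℕ → Prop) (R : ℕ → List ℕ → ℕ) (lam : ℕ) (cu : Cnd3) (tu : ℕ)
    (Q : List (List ℕ) → Prop) (φ : List ℕ → List (List ℕ) → List ℕ) (m0 : List (List ℕ)) :
    Prop where
  E : ∀ k z t, Fm V u blk TB N T le R lam cu tu z t k → ∀ m, Q m → Mle m0 m → U (φ k.1 m)
  D : ∀ k z t, Fm V u blk TB N T le R lam cu tu z t k → ∀ m, Q m → Mle m0 m → ∀ n,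
    ∃ k' Z t' m', Z t = z ∧ Con u blk TB T Z t t' k k' ∧ Base V u blk TB N T k' (Z t') t' ∧
      le (lam + 1) k.1 k'.1 ∧ Q m' ∧ Mle m m' ∧ n ≤ (φ k'.1 m').length

/-- Monotone evaluation; `U` is closed under initial segments. -/
structure Ev (U : List ℕ → Prop) (φ : List ℕ → List (List ℕ) → List ℕ) : Prop where
  mono : ∀ w w' m m', w <+: w' → Mle m m' → φ w m <+: φ w' m'
  pc : ∀ σ τ, U τ → σ <+: τ → U σ

/-! ## Configurations -/

/-- The driver, the strings of the other colours, the condition. -/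
abbrev Cf : Type := List ℕ × List (List ℕ) × Cnd3

abbrev Cf.sg (a : Cf) : List ℕ := a.1
abbrev Cf.m (a : Cf) : List (List ℕ) := a.2.1
abbrev Cf.c (a : Cf) : Cnd3 := a.2.2

/-- The invariant. -/
structure Gd (V : ℕ → Prop) (u blk : ℕ → ℕ) (TB : List ℕ → Prop) (N : ℕ) (T Th : List ℕ → Prop)
    (le : ℕ → List ℕ → List ℕ → Prop) (R : ℕ → List ℕ → ℕ) (lam : ℕ) (cu : Cnd3) (tu : ℕ)
    (Q : List (List ℕ) → Prop) (m0 : List (List ℕ)) (p : List ℕ) (a : Cf) : Prop where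
  reg : Reg V u blk TB N a.sg
  far : ∃ t, N ≤ t ∧ u t ≤ (endd o a.sg).1
  m0 : Mle m0 a.m
  m1 : ∃ m, Q m ∧ Mle a.m m
  cv : CVr V u blk TB N T a.c
  atz : At (endd o a.sg) a.c
  cle : CLe T cu a.c
  con : u (tu + 1) ≤ (endd o a.sg).1 ∧ ∃ Z, Cng u blk TB Z tu cu (endd o a.sg).1 a.c
  tx : le lam cu.1 a.c.1
  lst : Th p ∧ ∃ w, a.c.1 = w ++ [R lam p]
  own : ∀ t y, N ≤ t → y.1 = u t → Ps a.sg y → (endd o a.sg).1 < u (t + 1) →
    y.2.length + 1 ≤ blk t ∧ ∀ e ∈ a.c.2, ∃ i, Ps e.2.2 (ow y i)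

/-- The private states of the string `α` are above its first state. -/
def Clc (g : ℕ) (α : List ℕ) : Prop :=
  ∀ s ∈ α, (tgt s).1 < (tgt g).1 → Lv (src (α.headD 0)) (tgt s)

/-- The new part of a stem is certified by the symbols of `τ`. -/
def Cert (τ ν : List ℕ) : Prop :=
  ∀ s ∈ ν, (∃ g ∈ τ, (∃ α ∈ Ap g, s ∈ α) ∨ ∃ q ∈ Ex g, s ∈ q.2 ∧ Clc g q.2) ∧
    ∀ g ∈ τ, tgt s ≠ ow (tgt g) 0

/-- The decidable part of a step, before the payment. -/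
structure Pre (T : List ℕ → Prop) (le : ℕ → List ℕ → List ℕ → Prop) (lam : ℕ) (a b : Cf) :
    Prop where
  sg : a.sg <+: b.sg
  lt : a.sg.length < b.sg.length
  m : Mle a.m b.m
  cvs : CVs T b.c
  cle : CLe T a.c b.c
  atz : At (endd o b.sg) b.c
  up : ∀ e' ∈ b.c.2, ∃ e ∈ a.c.2, e.2.2 <+: e'.2.2 ∧
    Cert (b.sg.drop a.sg.length) (e'.2.2.drop e.2.2.length)
  tx : le (lam + 1) a.c.1 b.c.1

/-- The payment. -/
def pay (R : ℕ → List ℕ → ℕ) (lam : ℕ) (b : Cf) (q : List ℕ) : Cf :=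
  (b.1, b.2.1, (b.2.2.1 ++ [R lam q], b.2.2.2))

end Pool.Agent.Lib.MP_d48993_lc.Rem
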