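import Pool.Agent.Lib.MP_d48993_lc.AE.Rem.Move2

/-!
# Part R: commands are coned extensions
-/

set_option autoImplicit false

namespace Pool.Agent.Lib.MP_d48993_lc.Rem

open Node

variable {V : ℕ → Prop} {u blk : ℕ → ℕ} {TB : List ℕ → Prop} {N : ℕ}
  {T : List ℕ → Prop} {le : ℕ → List ℕ → List ℕ → Prop} {R : ℕ → List ℕ → ℕ} {lam : ℕ}
  {cu : Cnd3} {tu : ℕ} {z : St} {t : ℕ} {k : Cnd3}

/-- The end of the command is the last state `Z t`. -/
theorem Fm.zeq (hG : Gr V u blk) (h : Fm V u blk TB N T le R lam cu tu z t k) {Z : ℕ → St}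
    (hZ : Cng u blk TB Z tu cu (u t) k) : Z t = z := by
  have htu := h.con.1
  obtain ⟨p0, hp0⟩ := h.bs.cv.cvs.root
  obtain ⟨i, -, h1⟩ := h.bs.atz.en _ hp0
  have hlv := (h.bs.cv.reg _ hp0).lv
  have hz := h.bs.rt
  have h2 : Ps p0 (ow z i) := by
    rw [← h1]
    refine ps_endd ?_
    rw [h1, ow_root, hz]
    exact hG.upos t
  rcases Nat.lt_or_eq_of_le htu with h3 | h3
  · exact hG.cng_eq hZ h3 le_rfl hz hp0 hlv ⟨i, h2⟩
  · subst h3
    obtain ⟨e, he, h4⟩ := hZ.up _ hp0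
    obtain ⟨j, -, h5⟩ := hZ.atz.en e he
    have hr := hZ.rt tu le_rfl le_rfl
    have h6 : Ps p0 (ow (Z tu) j) := by
      refine ps_mono h4 ?_
      rw [← h5]
      refine ps_endd ?_
      rw [h5, ow_root, hr]
      exact hG.upos tu
    exact (ow_inj' (hG.ps_uniq hlv h6 h2 (by rw [ow_root, ow_root, hr, hz]))).1

/-- Commands are coned extensions. -/
theorem Fm.toCon (hG : Gr V u blk) (h : Fm V u blk TB N T le R lam cu tu z t k) :
    ∃ Z : ℕ → St, (∀ s, (Z s).1 = u s) ∧ Z t = z ∧ Con u blk TB T Z tu t cu k := by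
  obtain ⟨htu, Z, hZ⟩ := h.con
  have hzt := h.zeq hG hZ
  have hin : ∀ s, tu ≤ s → s ≤ t →
      (if tu ≤ s ∧ s ≤ t then Z s else (u s, []) : St) = Z s := fun s h1 h2 => if_pos ⟨h1, h2⟩
  have hle : ∀ s, s ≤ t → u s ≤ u t := fun s hs => hG.ule hs
  refine ⟨fun s => if tu ≤ s ∧ s ≤ t then Z s else (u s, []), fun s => ?_, ?_, htu, h.cle, ?_,
    ?_, hZ.up, fun s h1 h2 => ?_, fun s h1 h2 => ?_, fun e he s h1 h2 => ?_⟩
  · show (if tu ≤ s ∧ s ≤ t then Z s else (u s, []) : St).1 = u s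
    by_cases h1 : tu ≤ s ∧ s ≤ t
    · rw [if_pos h1]
      exact hZ.rt s h1.1 (hle s h1.2)
    · rw [if_neg h1]
  · show (if tu ≤ t ∧ t ≤ t then Z t else (u t, []) : St) = z
    rw [hin t htu le_rfl, hzt]
  · show At (if tu ≤ tu ∧ tu ≤ t then Z tu else (u tu, []) : St) cu
    rw [hin tu le_rfl htu]; exact hZ.atz
  · show At (if tu ≤ t ∧ t ≤ t then Z t else (u t, []) : St) k
    rw [hin t htu le_rfl, hzt]; exact h.bs.atz
  · show (if tu ≤ s ∧ s ≤ t then Z s else (u s, []) : St).1 = u s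
    rw [hin s h1 h2]; exact hZ.rt s h1 (hle s h2)
  · show Lk blk TB s (if tu ≤ s ∧ s ≤ t then Z s else (u s, []) : St)
      (if tu ≤ s + 1 ∧ s + 1 ≤ t then Z (s + 1) else (u (s + 1), []) : St)
    rw [hin s h1 h2.le, hin (s + 1) (by omega) (by omega)]
    exact hZ.lk s h1 (hle (s + 1) (by omega))
  · obtain ⟨i, h3, h4⟩ := hZ.way e he s h1 (hle s h2)
    refine ⟨i, h3, ?_⟩
    show Ps _ (ow (if tu ≤ s ∧ s ≤ t then Z s else (u s, []) : St) i)
    rw [hin s h1.le h2]; exact h4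

end Pool.Agent.Lib.MP_d48993_lc.Rem
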