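import Pool.Agent.Lib.MP_d48993_lc.AE.Rem.Move

/-!
# Part R: iterated MOVE, driving, COMPLETE (finding 4183, (R1.1), (R2.1))
-/

set_option autoImplicit false

namespace Pool.Agent.Lib.MP_d48993_lc.Rem

open Node
open Node.Proc (endd_append endd_snoc ch_end ch_append ch_pfx)

variable {V : ℕ → Prop} {u blk : ℕ → ℕ} {TB : List ℕ → Prop}

theorem cle_trans {T : List ℕ → Prop} {c c' c'' : Cnd3}
    (hu : ∀ e ∈ c''.2, ∀ e' ∈ c''.2, e.1 = e'.1 → e = e') (h : CLe T c c')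
    (h' : CLe T c' c'') : CLe T c c'' := by
  refine ⟨h.px.trans h'.px, ?_, ?_, ?_⟩
  · intro e he
    obtain ⟨p', h1, h2⟩ := h.old e he
    obtain ⟨p'', h3, h4⟩ := h'.old _ h2
    exact ⟨p'', h1.trans h3, h4⟩
  · intro e he hnew e₁ he₁ h1
    obtain ⟨p', h2, h3⟩ := h.old e₁ he₁
    by_cases hex : ∃ e₀ ∈ c'.2, e₀.1 = e.1
    · obtain ⟨e₀, h4, h5⟩ := hex
      obtain ⟨p'', h6, h7⟩ := h'.old e₀ h4
      have h8 := hu _ h7 _ he h5
      have h9 := h.new e₀ h4 (fun e₂ h10 h11 => hnew e₂ h10 (h11.trans h5)) e₁ he₁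
        (by rw [h5]; exact h1)
      rw [← h8]
      exact h9
    · push Not at hex
      exact h2.trans (h'.new e he hex _ h3 h1)
  · intro n hn s ρ hF hT
    by_cases hex : n ∈ c'.1.drop c.1.length
    · obtain ⟨p, hp⟩ := h.fact n hex s ρ hF hT
      obtain ⟨p', -, h1⟩ := h'.old _ hp
      exact ⟨p', h1⟩
    · refine h'.fact n ?_ s ρ hF hT
      obtain ⟨r, hr⟩ := h'.px
      obtain ⟨r', hr'⟩ := h.px
      rw [← hr, ← hr', List.append_assoc, List.drop_left] at hn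
      rw [← hr', List.drop_left] at hex
      rcases List.mem_append.1 hn with h1 | h1
      · exact absurd h1 hex
      · rw [← hr, List.drop_left]
        exact h1

/-- One more move which is not a fact. -/
theorem cle_snoc {T : List ℕ → Prop} {c c' : Cnd3} {n : ℕ} (h : CLe T c c')
    (hn : ∀ s ρ, Fact n s ρ → ¬ T s) : CLe T c (c'.1 ++ [n], c'.2) := by
  refine ⟨h.px.trans (List.prefix_append _ _), h.old, h.new, fun m hm s ρ hF hT => ?_⟩
  obtain ⟨r, hr⟩ := h.px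
  have e1 : (c'.1 ++ [n]).drop c.1.length = r ++ [n] := by
    rw [← hr, List.append_assoc, List.drop_left]
  have e2 : c'.1.drop c.1.length = r := by rw [← hr, List.drop_left]
  have hm' : m ∈ r ++ [n] := by rw [← e1]; exact hm
  rcases List.mem_append.1 hm' with h1 | h1
  · exact h.fact m (by rw [e2]; exact h1) s ρ hF hT
  · rw [List.mem_singleton.1 h1] at hF
    exact (hn s ρ hF hT).elim

/-- Iterated MOVE. -/
theorem Gr.move (hG : Gr V u blk) (hA : AccV V u) {N : ℕ} {T : List ℕ → Prop} {c : Cnd3}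
    {z : St} {Z : ℕ → St} {t0 t1 : ℕ} (hc : CVr V u blk TB N T c) (hz : At z c)
    (h1 : u t0 ≤ z.1) (h2 : z.1 < u (t0 + 1)) (hy : (Z t0).1 = u t0)
    (hys : ∀ e ∈ c.2, ∃ i, Ps e.2.2 (ow (Z t0) i)) (hyd : (Z t0).2.length + 1 ≤ blk t0)
    (hlt : t0 < t1) (hZ : ∀ t, t0 < t → t ≤ t1 → (Z t).1 = u t ∧ ∀ b ∈ (Z t).2, b < sz (Z t).1)
    (hL : ∀ t, t0 ≤ t → t < t1 → Lk blk TB t (Z t) (Z (t + 1))) :
    ∃ c' : Cnd3, CVr V u blk TB N T c' ∧ At (Z t1) c' ∧ c'.1 = c.1 ∧ CLe T c c' ∧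
      (∀ e' ∈ c'.2, ∃ e ∈ c.2, e.2.2 <+: e'.2.2) ∧ (Z t1).2.length + 1 ≤ blk t1 ∧
      ∀ e' ∈ c'.2, ∀ t, t0 < t → t ≤ t1 → ∃ i, 1 ≤ i ∧ Ps e'.2.2 (ow (Z t) i) := by
  induction t1 with
  | zero => omega
  | succ t1 ih =>
    rcases Nat.lt_or_eq_of_le (Nat.le_of_lt_succ hlt) with h3 | h3
    · obtain ⟨c1, a1, a2, a3, a4, a5, a6, a7⟩ := ih h3 (fun t h4 h5 => hZ t h4 (by omega))
        (fun t h4 h5 => hL t h4 (by omega))
      have hr := (hZ t1 h3 (by omega)).1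
      have hr' := hZ (t1 + 1) (by omega) le_rfl
      obtain ⟨c2, b1, b2, b3, b4, b5, b6⟩ := hG.move1 hA a1 a2 (by rw [hr]) (by
        rw [hr]; exact hG.umono t1) hr (fun e he => by
          obtain ⟨i, -, h6⟩ := a2.en e he
          refine ⟨i, ?_⟩
          rw [← h6]
          refine ps_endd ?_
          rw [h6, ow_root, hr]
          exact hG.upos t1) a6 hr'.1 hr'.2 (hL t1 (by omega) (by omega))
      refine ⟨c2, b1, b2, b3.trans a3, cle_trans b1.cvs.uniq a4 b4, fun e' he' => ?_,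
        ((hL t1 (by omega) (by omega)).own a6 0 0).2, fun e' he' t h8 h9 => ?_⟩
      · obtain ⟨e1, he1, h6⟩ := b5 e' he'
        obtain ⟨e0, he0, h7⟩ := a5 e1 he1
        exact ⟨e0, he0, h7.trans h6⟩
      · rcases Nat.lt_or_eq_of_le h9 with h10 | h10
        · obtain ⟨e1, he1, h6⟩ := b5 e' he'
          obtain ⟨i, h11, h12⟩ := a7 e1 he1 t h8 (by omega)
          exact ⟨i, h11, ps_mono h6 h12⟩
        · subst h10
          exact b6 e' he'
    · subst h3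
      have hr' := hZ (t0 + 1) (by omega) le_rfl
      obtain ⟨c2, b1, b2, b3, b4, b5, b6⟩ := hG.move1 hA hc hz h1 h2 hy hys hyd hr'.1 hr'.2
        (hL t0 le_rfl (by omega))
      refine ⟨c2, b1, b2, b3, b4, b5, ((hL t0 le_rfl (by omega)).own hyd 0 0).2,
        fun e' he' t h3 h4 => ?_⟩
      have h5 : t = t0 + 1 := by omega
      subst h5
      exact b6 e' he'

/-- The driver follows prescribed public states. -/
theorem Gr.drive (hG : Gr V u blk) {N : ℕ} {σ : List ℕ} {Z : ℕ → St} {t0 t1 : ℕ}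
    (hr : Reg V u blk TB N σ) (h0 : endd o σ = Z t0) (hle : t0 ≤ t1)
    (hZ : ∀ t, t0 ≤ t → t ≤ t1 → (Z t).1 = u t ∧ ∀ b ∈ (Z t).2, b < sz (Z t).1)
    (hL : ∀ t, t0 ≤ t → t < t1 → Lk blk TB t (Z t) (Z (t + 1))) :
    ∃ τ, Reg V u blk TB N (σ ++ τ) ∧ endd o (σ ++ τ) = Z t1 ∧ (t0 < t1 → τ ≠ []) := by
  induction t1 with
  | zero =>
    have : t0 = 0 := by omega
    subst this
    exact ⟨[], by rwa [List.append_nil], by rwa [List.append_nil], fun h => by omega⟩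
  | succ t1 ih =>
    rcases Nat.lt_or_eq_of_le hle with h3 | h3
    · obtain ⟨τ, a1, a2, -⟩ := ih (by omega) (fun t h4 h5 => hZ t h4 (by omega))
        (fun t h4 h5 => hL t h4 (by omega))
      have hr1 := hZ t1 (by omega) (by omega)
      have hr2 := hZ (t1 + 1) (by omega) le_rfl
      have hlk := hL t1 (by omega) (by omega)
      have hu := hG.umono t1
      have hps : Ps (σ ++ τ) (Z t1) := by
        rw [← a2]
        refine ps_endd ?_
        rw [a2, hr1.1]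
        exact hG.upos t1
      obtain ⟨g, b1, b2, b3, b4⟩ := hG.can (Z t1) (Z (t1 + 1)) (t1 + 1)
        (hG.adm_ps a1.lv hps) (Or.inl ⟨t1, hr1.1⟩) (by rw [hr1.1]; exact hu)
        ⟨by have := hG.big (t1 + 1); have := hlk.ly; rw [hr2.1]; omega, hr2.2⟩ hr2.1
        (by have := hlk.ly; omega)
      refine ⟨τ ++ [g], ?_, ?_, fun _ => by simp⟩
      · rw [← List.append_assoc]
        refine hG.reg_snoc (t0 := t1) (x0 := Z t1) a1 b1 (by rw [b2, a2]) (by rw [b3, hr2.1])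
          (by rw [a2, hr1.1]) (by rw [a2, hr1.1]; exact hu) hr1.1 hps (by rw [b3]; exact hlk)
      · rw [← List.append_assoc, endd_snoc, b3]
    · subst h3
      exact ⟨[], by rwa [List.append_nil], by rwa [List.append_nil], fun h => by omega⟩

/-- Entries of a kept string. -/
theorem Gr.keep_adm (hG : Gr V u blk) {y : St} {t : ℕ} (hy : y.1 = u t) (hA : Adm y) {s : ℕ}
    (h : t ≤ s) : ∀ b ∈ y.2, b < sz (u s) := by
  intro b hb
  have h1 := hA.2 b hb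
  rw [hy] at h1
  rcases Nat.lt_or_eq_of_le h with h2 | h2
  · exact lt_of_lt_of_le h1 (hG.szm s (u t) (Or.inl ⟨t, rfl⟩) (hG.ulm h2))
  · rw [← h2]; exact h1

/-- Continuation of the states `Z`. -/
theorem Gr.cng_ext (hG : Gr V u blk) {Z Y : ℕ → St} {tu : ℕ} {cu : Cnd3} {r : ℕ} {c : Cnd3}
    (h : Cng u blk TB Z tu cu r c) {c' : Cnd3} {r' tl : ℕ} (htl : tu < tl) (h1 : u tl ≤ r)
    (hY : Z tl = Y tl) (hrt : ∀ t, tl < t → u t ≤ r' → (Y t).1 = u t)
    (hlk : ∀ t, tl ≤ t → u (t + 1) ≤ r' → Lk blk TB t (Y t) (Y (t + 1)))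
    (hup : ∀ e' ∈ c'.2, ∃ e ∈ c.2, e.2.2 <+: e'.2.2)
    (hway : ∀ e' ∈ c'.2, ∀ t, tl < t → u t ≤ r' → ∃ i, 1 ≤ i ∧ Ps e'.2.2 (ow (Y t) i)) :
    Cng u blk TB (fun t => if t ≤ tl then Z t else Y t) tu cu r' c' := by
  refine ⟨?_, fun e' he' => ?_, fun t h2 h3 => ?_, fun t h2 h3 => ?_, fun e' he' t h2 h3 => ?_⟩
  · show At (if tu ≤ tl then Z tu else Y tu) cu
    rw [if_pos htl.le]; exact h.atz
  · obtain ⟨e, he, h4⟩ := hup e' he'
    obtain ⟨e0, he0, h5⟩ := h.up e he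
    exact ⟨e0, he0, h5.trans h4⟩
  · show (if t ≤ tl then Z t else Y t).1 = u t
    by_cases h4 : t ≤ tl
    · rw [if_pos h4]
      exact h.rt t h2 ((hG.ule h4).trans h1)
    · rw [if_neg h4]
      exact hrt t (by omega) h3
  · show Lk blk TB t (if t ≤ tl then Z t else Y t) (if t + 1 ≤ tl then Z (t + 1) else Y (t + 1))
    by_cases h4 : t + 1 ≤ tl
    · rw [if_pos h4, if_pos (show t ≤ tl by omega)]
      exact h.lk t h2 ((hG.ule h4).trans h1)
    · rw [if_neg h4]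
      by_cases h5 : t ≤ tl
      · have h6 : t = tl := by omega
        subst h6
        rw [if_pos le_rfl, hY]
        exact hlk t le_rfl h3
      · rw [if_neg h5]
        exact hlk t (by omega) h3
  · by_cases h4 : t ≤ tl
    · obtain ⟨e, he, h5⟩ := hup e' he'
      obtain ⟨i, h6, h7⟩ := h.way e he t h2 ((hG.ule h4).trans h1)
      refine ⟨i, h6, ?_⟩
      show Ps _ (ow (if t ≤ tl then Z t else Y t) i)
      rw [if_pos h4]
      exact ps_mono h5 h7
    · obtain ⟨i, h6, h7⟩ := hway e' he' t (by omega) h3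
      refine ⟨i, h6, ?_⟩
      show Ps _ (ow (if t ≤ tl then Z t else Y t) i)
      rw [if_neg h4]
      exact h7

/-- The state `Z t` is the state of the driver. -/
theorem Gr.cng_eq (hG : Gr V u blk) {Z : ℕ → St} {tu : ℕ} {cu : Cnd3} {r : ℕ} {c : Cnd3}
    (h : Cng u blk TB Z tu cu r c) {t : ℕ} {y : St} (h1 : tu < t) (h2 : u t ≤ r) (hy : y.1 = u t)
    {e : List ℕ × List ℕ × List ℕ} (he : e ∈ c.2) (hlv : LV V e.2.2)
    (hp : ∃ i, Ps e.2.2 (ow y i)) : Z t = y := by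
  obtain ⟨i, -, h3⟩ := h.way e he t h1 h2
  obtain ⟨j, h4⟩ := hp
  have h5 := hG.ps_uniq hlv h3 h4 (by rw [ow_root, ow_root, hy, h.rt t h1.le h2])
  exact (ow_inj' h5).1

/-- COMPLETE. -/
theorem Gd.complete {N : ℕ} {T Th : List ℕ → Prop}
    {le : ℕ → List ℕ → List ℕ → Prop} {R : ℕ → List ℕ → ℕ} {lam : ℕ} {cu : Cnd3} {tu : ℕ}
    {Q : List (List ℕ) → Prop} {m0 : List (List ℕ)} {p : List ℕ} {a : Cf}
    (h : Gd V u blk TB N T Th le R lam cu tu Q m0 p a) (hG : Gr V u blk) (hA : AccV V u) :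
    ∃ k z t, Fm V u blk TB N T le R lam cu tu z t k ∧ k.1 = a.c.1 := by
  obtain ⟨tf, htf, htf'⟩ := h.far
  obtain ⟨t, h1, h2, h3⟩ := hG.last htf'
  obtain ⟨y, h4, h5⟩ := h.reg.pass t (by omega) h2
  obtain ⟨h6, h7⟩ := h.own t y (by omega) h4 h5 h3
  have hdep := h.reg.dep t y (by omega) h4 h5
  obtain ⟨hcon, Z, hZ⟩ := h.con
  have htu : tu < t := by
    have := hG.ult (show u (tu + 1) < u (t + 1) by omega)
    omega
  obtain ⟨p0, hp0⟩ := h.cv.cvs.root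
  have hZt : Z t = y := hG.cng_eq hZ htu h2 h4 hp0 (h.cv.reg _ hp0).lv (h7 _ hp0)
  by_cases hx : (endd o a.sg).1 = u t ∧ Lb blk t
  · have hy : endd o a.sg = y := hG.ps_uniq h.reg.lv (ps_endd (by
      rw [hx.1]; exact hG.upos t)) h5 (hx.1.trans h4.symm)
    refine ⟨a.c, y, t, ⟨⟨h.cv, hy ▸ h.atz, h4, hx.2, hdep.1, h6⟩, h.cle, ⟨htu.le, Z, ?_⟩, h.tx, by
      obtain ⟨-, w, hw⟩ := h.lst
      exact ⟨w, p, hw⟩⟩, rfl⟩
    rw [← hx.1]; exact hZ
  · obtain ⟨t1, h8, -, h9⟩ := hG.lb (t + 1) 0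
    have hadm := hG.adm_ps h.reg.lv h5
    have hble : ∀ s, t ≤ s → y.2.length ≤ blk s := fun s hs => by
      have := hG.ble hs
      omega
    have hyy : ((u t, y.2) : St) = y := Prod.ext h4.symm rfl
    have hlk : ∀ s, t ≤ s → Lk blk TB s (u s, y.2) (u (s + 1), y.2) := fun s h10 =>
      Lk.keep (x := (u s, y.2)) (hG.bstep s) hdep.1 (hble s h10) (u (s + 1))
    obtain ⟨k, a1, a2, a3, a4, a5, a6, a7⟩ := hG.move hA (Z := fun s => (u s, y.2)) (t0 := t)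
      (t1 := t1) h.cv h.atz h2 h3 rfl (by
        intro e he
        obtain ⟨i, hi⟩ := h7 e he
        exact ⟨i, by rw [hyy]; exact hi⟩) h6 (by omega)
      (fun s h10 _ => ⟨rfl, hG.keep_adm h4 hadm (by omega)⟩)
      (fun s h10 _ => hlk s h10)
    have hcng := hG.cng_ext (Y := fun s => (u s, y.2)) (c' := k) (r' := u t1) hZ htu h2
      (by rw [hZt]; exact hyy.symm) (fun s _ _ => rfl) (fun s h10 _ => hlk s h10) a5
      (fun e' he' s h10 h11 => a7 e' he' s h10 (by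
        by_contra h12
        have := hG.ulm (show t1 < s by omega)
        omega))
    refine ⟨k, (u t1, y.2), t1, ⟨⟨a1, a2, rfl, h9, hdep.1, a6⟩, cle_trans a1.cvs.uniq h.cle a4,
      ⟨by omega, _, hcng⟩, ?_, ?_⟩, a3⟩
    · rw [a3]; exact h.tx
    · rw [a3]
      obtain ⟨-, w, hw⟩ := h.lst
      exact ⟨w, p, hw⟩

end Pool.Agent.Lib.MP_d48993_lc.Rem
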