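import Pool.Agent.Lib.MP_d48993_lc.AE.Rem.Bet
import Pool.Agent.Lib.MP_d48993_lc.AE.Rem.Move2

/-!
# Part R: INV and CARRYC (finding 4183, (R2.2), (R1.4))
-/

set_option autoImplicit false

namespace Pool.Agent.Lib.MP_d48993_lc.Rem

open Node
open Node.Proc (endd_append endd_snoc ch_end ch_append ch_pfx)

variable {V : ℕ → Prop} {u blk : ℕ → ℕ} {TB : List ℕ → Prop} {N : ℕ} {T Th : List ℕ → Prop}
  {le : ℕ → List ℕ → List ℕ → Prop} {R : ℕ → List ℕ → ℕ} {lam : ℕ} {cu : Cnd3} {tu : ℕ}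
  {Q : List (List ℕ) → Prop} {m0 : List (List ℕ)}

theorem Mle.trans {a b c : List (List ℕ)} (h : Mle a b) (h' : Mle b c) : Mle a c := by
  unfold Mle at *
  induction h generalizing c with
  | nil => exact h'
  | cons h1 _ ih =>
    cases h' with
    | cons h3 h4 => exact List.Forall₂.cons (h1.trans h3) (ih h4)

theorem Mle.refl (a : List (List ℕ)) : Mle a a := by
  unfold Mle
  induction a with
  | nil => exact List.Forall₂.nil
  | cons a l ih => exact List.Forall₂.cons (List.prefix_refl _) ih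

/-- The invariant of the graph part for the next condition. -/
theorem Gr.inv_core (hG : Gr V u blk) {σ σ' : List ℕ} {c c' : Cnd3} (hr : Reg V u blk TB N σ')
    (hpx : σ <+: σ') (hfar : ∃ t, N ≤ t ∧ u t ≤ (endd o σ).1) (hc : CVr V u blk TB N T c)
    (hz : At (endd o σ) c) (hown : ∀ t y, N ≤ t → y.1 = u t → Ps σ y →
      (endd o σ).1 < u (t + 1) → y.2.length + 1 ≤ blk t ∧ ∀ e ∈ c.2, ∃ i, Ps e.2.2 (ow y i))
    (hcon : u (tu + 1) ≤ (endd o σ).1 ∧ ∃ Z, Cng u blk TB Z tu cu (endd o σ).1 c)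
    (hc' : CVs T c') (hz' : At (endd o σ') c')
    (hup : ∀ e' ∈ c'.2, ∃ e ∈ c.2, e.2.2 <+: e'.2.2 ∧
      Cert (σ'.drop σ.length) (e'.2.2.drop e.2.2.length)) :
    CVr V u blk TB N T c' ∧ (∀ t y, N ≤ t → y.1 = u t → Ps σ' y →
      (endd o σ').1 < u (t + 1) → y.2.length + 1 ≤ blk t ∧
        ∀ e ∈ c'.2, ∃ i, Ps e.2.2 (ow y i)) ∧
    (u (tu + 1) ≤ (endd o σ').1 ∧ ∃ Z, Cng u blk TB Z tu cu (endd o σ').1 c') := by
  have hrr := hG.root_pfx hr.lv hpx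
  have hrσ := hG.reg_pfx hr hpx
  have hup' := hup
  obtain ⟨τ, rfl⟩ := hpx
  rw [List.drop_left] at hup
  have key : ∀ e' ∈ c'.2, Reg V u blk TB N e'.2.2 ∧ (∀ t y, N ≤ t → y.1 = u t →
      Ps (σ ++ τ) y → (endd o (σ ++ τ)).1 < u (t + 1) → y.2.length + 1 ≤ blk t ∧
        ∃ i, Ps e'.2.2 (ow y i)) ∧ ∀ t y, N ≤ t → (endd o σ).1 < u t → y.1 = u t →
      Ps (σ ++ τ) y → ∃ i, 1 ≤ i ∧ Ps e'.2.2 (ow y i) := by
    intro e' he'
    obtain ⟨e, he, ⟨ν, hν⟩, hcert⟩ := hup e' he'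
    rw [← hν, List.drop_left] at hcert
    obtain ⟨i, -, h1⟩ := hz.en e he
    obtain ⟨j, -, h2⟩ := hz'.en e' he'
    have h3 := (hc'.stem e' he').2
    rw [← hν] at h3 h2 ⊢
    have h4 := (ch_append.1 h3).2
    refine hG.cert_reg hr (hc.reg e he) (by rw [h1, ow_root]) h4 (by rw [h2, ow_root]) hcert hfar
      fun t y h5 h6 h7 h8 => ?_
    obtain ⟨h9, h10⟩ := hown t y h5 h6 h7 h8
    exact ⟨h9, h10 e he⟩
  refine ⟨⟨hc', fun e he => (key e he).1⟩, fun t y h1 h2 h3 h4 => ⟨?_, fun e he =>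
    ((key e he).2.1 t y h1 h2 h3 h4).2⟩, hcon.1.trans hrr, ?_⟩
  · obtain ⟨p, hp⟩ := hc'.root
    exact ((key _ hp).2.1 t y h1 h2 h3 h4).1
  · obtain ⟨hcon, Z, hZ⟩ := hcon
    obtain ⟨tf, htf, htf'⟩ := hfar
    obtain ⟨tl, h1, h2, h3⟩ := hG.last htf'
    obtain ⟨y, h4, h5⟩ := hrσ.pass tl (by omega) h2
    have h7 := (hown tl y (by omega) h4 h5 h3).2
    have htu : tu < tl := by
      have := hG.ult (show u (tu + 1) < u (tl + 1) by omega)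
      omega
    obtain ⟨p0, hp0⟩ := hc.cvs.root
    have hZt : Z tl = y := hG.cng_eq hZ htu h2 h4 hp0 (hc.reg _ hp0).lv (h7 _ hp0)
    have hY : ∃ Y : ℕ → St, ∀ t, N ≤ t → u t ≤ (endd o (σ ++ τ)).1 →
        (Y t).1 = u t ∧ Ps (σ ++ τ) (Y t) := by
      have h8 : ∀ t, ∃ x : St, N ≤ t → u t ≤ (endd o (σ ++ τ)).1 →
          x.1 = u t ∧ Ps (σ ++ τ) x := by
        intro t
        by_cases h9 : N ≤ t ∧ u t ≤ (endd o (σ ++ τ)).1
        · obtain ⟨x, h10, h11⟩ := hr.pass t h9.1 h9.2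
          exact ⟨x, fun _ _ => ⟨h10, h11⟩⟩
        · exact ⟨o, fun h10 h11 => (h9 ⟨h10, h11⟩).elim⟩
      choose Y hY using h8
      exact ⟨Y, hY⟩
    obtain ⟨Y, hY⟩ := hY
    have hYl : Y tl = y := by
      obtain ⟨h8, h9⟩ := hY tl (by omega) (by omega)
      exact hG.ps_uniq hr.lv h9 (ps_append.2 (Or.inl h5)) (h8.trans h4.symm)
    refine ⟨_, hG.cng_ext (Y := Y) hZ htu h2 (by rw [hZt, hYl])
      (fun t h8 h9 => (hY t (by omega) h9).1) (fun t h8 h9 => ?_) (fun e' he' => ?_)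
      fun e' he' t h8 h9 => ?_⟩
    · have h10 := hG.umono t
      obtain ⟨h11, h12⟩ := hY t (by omega) (by omega)
      obtain ⟨h13, h14⟩ := hY (t + 1) (by omega) h9
      exact hr.link t _ _ (by omega) h11 h13 h12 h14
    · obtain ⟨e, he, h8, -⟩ := hup' e' he'
      exact ⟨e, he, h8⟩
    · obtain ⟨h11, h12⟩ := hY t (by omega) h9
      have h13 := hG.ule (show tl + 1 ≤ t by omega)
      exact (key e' he').2.2 t _ (by omega) (by omega) h11 h12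

/-- INV. -/
theorem Gd.inv {p q : List ℕ} {a b : Cf} (h : Gd V u blk TB N T Th le R lam cu tu Q m0 p a)
    (hG : Gr V u blk) (hT : Tx T Th le R lam) (hP : Pre T le lam a b)
    (hr : Reg V u blk TB N b.sg) (hm : ∃ m, Q m ∧ Mle b.m m) (hpq : p <+: q) (hne : p ≠ q)
    (hq : Th q) : Gd V u blk TB N T Th le R lam cu tu Q m0 q (pay R lam b q) := by
  obtain ⟨h1, h2, h9⟩ := hG.inv_core hr hP.sg h.far h.cv h.atz h.own h.con hP.cvs hP.atz hP.up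
  obtain ⟨hTh, w, hw⟩ := h.lst
  have hle := hP.tx
  refine ⟨hr, ?_, h.m0.trans hP.m, hm, ⟨?_, h1.reg⟩, ⟨hP.atz.en, hP.atz.inj⟩, ?_, ?_, ?_,
    ⟨hq, b.c.1, rfl⟩, h2⟩
  · obtain ⟨t, h3, h4⟩ := h.far
    exact ⟨t, h3, h4.trans (hG.root_pfx hr.lv hP.sg)⟩
  · exact ⟨hP.cvs.root, hP.cvs.uniq, hP.cvs.mem, hP.cvs.stem, hP.cvs.emb, hP.cvs.stemEmb,
      hP.cvs.parent, hP.cvs.ac⟩
  · exact cle_snoc (cle_trans hP.cvs.uniq h.cle hP.cle) (hT.nf q)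
  · obtain ⟨h3, Z, hZ⟩ := h9
    exact ⟨h3, Z, hZ.atz, hZ.up, hZ.rt, hZ.lk, hZ.way⟩
  · have h3 := h.tx
    rw [hw] at h3 hle
    exact hT.tr _ _ _ _ h3 (hT.re w b.c.1 p q hle hpq hne hq)

/-- Prefixes of a string with ends of the same root. -/
theorem Gr.pfx_eq (hG : Gr V u blk) {p p' q : List ℕ} (hq : LV V q) (h1 : p <+: q)
    (h2 : p' <+: q) (hr : (endd o p).1 = (endd o p').1) : p = p' := by
  have key : ∀ p p' : List ℕ, LV V p' → p <+: p' → (endd o p).1 = (endd o p').1 → p = p' := by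
    rintro p p' h ⟨ν, rfl⟩ hr
    have h3 := (ch_append.1 h.1).2
    have hv : ∀ s ∈ ν, V s := fun s hs => h.2 s (List.mem_append.2 (Or.inr hs))
    by_cases h4 : ν = []
    · rw [h4, List.append_nil]
    · have := (ch_root hG.inc h3 hv).2.1 h4
      omega
  rcases List.prefix_or_prefix_of_prefix h1 h2 with h3 | h3
  · exact key p p' (hG.lv_pfx hq h2) h3 hr
  · exact (key p' p (hG.lv_pfx hq h1) h3 hr.symm).symm

/-- CARRYC. -/
theorem Gd.carry {p : List ℕ} {a : Cf} (h : Gd V u blk TB N T Th le R lam cu tu Q m0 p a)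
    (hG : Gr V u blk) (hC : CarryV V) {τ : List ℕ} (hr : Reg V u blk TB N (a.sg ++ τ))
    {m : List (List ℕ)} (hm : Q m) (ham : Mle a.m m) :
    ∃ c1 : Cnd3, c1.1 = a.c.1 ∧ CLe T a.c c1 ∧
      Gd V u blk TB N T Th le R lam cu tu Q m0 p (a.sg ++ τ, m, c1) ∧
      ∀ e' ∈ c1.2, ∃ e ∈ a.c.2, e.2.2 <+: e'.2.2 ∧ Cert τ (e'.2.2.drop e.2.2.length) := by
  have hc := h.cv
  have hz := h.atz
  obtain ⟨f, hf, hpos, hac⟩ := hC a.sg τ (a.c.2.map fun e => e.2.2) hr.lv (by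
      intro q hq
      obtain ⟨e, he, rfl⟩ := List.mem_map.1 hq
      exact (hc.reg e he).lv)
    ⟨fun q hq => by
        obtain ⟨e, he, rfl⟩ := List.mem_map.1 hq
        exact hz.en e he,
      fun q hq q' hq' h1 => by
        obtain ⟨e, he, rfl⟩ := List.mem_map.1 hq
        obtain ⟨e', he', rfl⟩ := List.mem_map.1 hq'
        rw [hz.inj e he e' he' h1]⟩ (by
      refine ac_sub (fun ν h1 => ?_) hc.cvs.ac
      obtain ⟨q, hq, h2⟩ := h1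
      obtain ⟨e, he, rfl⟩ := List.mem_map.1 hq
      exact ⟨e, he, h2⟩)
  have hf' : ∀ e ∈ a.c.2, e.2.2 <+: f e.2.2 ∧ LV V (f e.2.2) ∧
      (∀ s ∈ f e.2.2, s ∈ e.2.2 ∨ ∃ g ∈ τ, ∃ α ∈ Ap g, s ∈ α) ∧
      ∀ s ∈ f e.2.2, s ∈ e.2.2 ∨ ∀ g ∈ τ, tgt s ≠ ow (tgt g) 0 := fun e he =>
    hf e.2.2 (List.mem_map.2 ⟨e, he, rfl⟩)
  have hroot : ∀ e ∈ a.c.2, (endd o e.2.2).1 = (endd o a.sg).1 := fun e he => by
    obtain ⟨i, -, h1⟩ := hz.en e he
    rw [h1, ow_root]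
  have hfinj : ∀ e ∈ a.c.2, ∀ e' ∈ a.c.2, f e.2.2 = f e'.2.2 → e = e' := by
    intro e he e' he' h1
    obtain ⟨h2, h3, -, -⟩ := hf' e he
    obtain ⟨h4, -, -, -⟩ := hf' e' he'
    rw [← h1] at h4
    have h5 := hG.pfx_eq h3 h2 h4 (by rw [hroot e he, hroot e' he'])
    exact hz.inj e he e' he' (by rw [h5])
  have hcert : ∀ e ∈ a.c.2, Cert τ ((f e.2.2).drop e.2.2.length) := by
    intro e he s hs
    obtain ⟨⟨ν, hν⟩, h2, h3, h3'⟩ := hf' e he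
    rw [← hν, List.drop_left] at hs
    have hlv := h2
    rw [← hν] at hlv
    have hs' : s ∈ f e.2.2 := by rw [← hν]; exact List.mem_append.2 (Or.inr hs)
    have hns : s ∉ e.2.2 := by
      intro h4
      have h5 := ch_append.1 hlv.1
      have hv : ∀ s ∈ ν, V s := fun s hs => hlv.2 s (List.mem_append.2 (Or.inr hs))
      have h6 := ((ch_root hG.inc h5.2 hv).2.2 s hs).2
      have h7 := ((ch_root hG.inc (hc.reg e he).lv.1 (hc.reg e he).lv.2).2.2 s h4).1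
      have h8 := hG.inc s (hv s hs)
      omega
    refine ⟨?_, ?_⟩
    · rcases h3 s hs' with h4 | ⟨g, h5, h6⟩
      · exact (hns h4).elim
      · exact ⟨g, h5, Or.inl h6⟩
    · rcases h3' s hs' with h4 | h4
      · exact (hns h4).elim
      · exact h4
  set c1 : Cnd3 := (a.c.1, a.c.2.map fun e => (e.1, e.2.1, f e.2.2)) with hc1
  have hm1 : ∀ e', e' ∈ c1.2 ↔ ∃ e ∈ a.c.2, (e.1, e.2.1, f e.2.2) = e' := by
    intro e'
    rw [hc1]
    exact List.mem_map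
  have hup : ∀ e' ∈ c1.2, ∃ e ∈ a.c.2, e.2.2 <+: e'.2.2 ∧
      Cert τ (e'.2.2.drop e.2.2.length) := by
    intro e' he'
    obtain ⟨e, he, rfl⟩ := (hm1 _).1 he'
    exact ⟨e, he, (hf' e he).1, hcert e he⟩
  have hcle : CLe T a.c c1 := by
    refine ⟨List.prefix_refl _, fun e he => ⟨_, (hf' e he).1, (hm1 _).2 ⟨e, he, rfl⟩⟩,
      fun e' he' h3 => ?_, fun n hn => ?_⟩
    · obtain ⟨e1, he1, rfl⟩ := (hm1 _).1 he'
      exact (h3 e1 he1 rfl).elim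
    · simp [hc1] at hn
  have hcvs : CVs T c1 := by
    refine ⟨?_, ?_, ?_, ?_, ?_, ?_, ?_, ?_⟩
    · obtain ⟨q, hq⟩ := hc.cvs.root
      exact ⟨_, (hm1 _).2 ⟨_, hq, rfl⟩⟩
    · intro e he e' he' h3
      obtain ⟨e1, he1, rfl⟩ := (hm1 _).1 he
      obtain ⟨e2, he2, rfl⟩ := (hm1 _).1 he'
      rw [hc.cvs.uniq e1 he1 e2 he2 h3]
    · intro e he
      obtain ⟨e1, he1, rfl⟩ := (hm1 _).1 he
      exact hc.cvs.mem e1 he1
    · intro e he
      obtain ⟨e1, he1, rfl⟩ := (hm1 _).1 he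
      exact ⟨(hc.cvs.stem e1 he1).1.trans (hf' e1 he1).1, (hf' e1 he1).2.1.1⟩
    · intro e he e' he'
      obtain ⟨e1, he1, rfl⟩ := (hm1 _).1 he
      obtain ⟨e2, he2, rfl⟩ := (hm1 _).1 he'
      exact hc.cvs.emb e1 he1 e2 he2
    · intro e he e' he' h3
      obtain ⟨e1, he1, rfl⟩ := (hm1 _).1 he
      obtain ⟨e2, he2, rfl⟩ := (hm1 _).1 he'
      have h3' : e2.2.1 <+: f e1.2.2 := h3
      rcases List.prefix_or_prefix_of_prefix h3' (hf' e1 he1).1 with h4 | h4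
      · exact hc.cvs.stemEmb e1 he1 e2 he2 h4
      · have h5 := hG.root_pfx (hc.reg e2 he2).lv (hc.cvs.stem e2 he2).1
        have h6 := hG.root_pfx (hG.lv_pfx (hf' e1 he1).2.1 h3') h4
        rw [hroot e2 he2] at h5
        rw [hroot e1 he1] at h6
        have h7 := hG.pfx_eq (hf' e1 he1).2.1 h3' (hf' e1 he1).1 (by
          rw [hroot e1 he1]; omega)
        exact hc.cvs.stemEmb e1 he1 e2 he2 (by rw [h7])
    · intro e he h3
      obtain ⟨e1, he1, rfl⟩ := (hm1 _).1 he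
      obtain ⟨e2, he2, h4⟩ := hc.cvs.parent e1 he1 h3
      exact ⟨_, (hm1 _).2 ⟨e2, he2, rfl⟩, h4⟩
    · refine ac_sub (fun ν h3 => ?_) hac
      obtain ⟨e, he, h4⟩ := h3
      obtain ⟨e1, he1, rfl⟩ := (hm1 _).1 he
      exact ⟨f e1.2.2, List.mem_map.2 ⟨e1.2.2, List.mem_map.2 ⟨e1, he1, rfl⟩, rfl⟩, h4⟩
  have hat : At (endd o (a.sg ++ τ)) c1 := by
    refine ⟨fun e he => ?_, fun e he e' he' h1 => ?_⟩
    · obtain ⟨e1, he1, rfl⟩ := (hm1 _).1 he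
      exact hpos.en _ (List.mem_map.2 ⟨e1.2.2, List.mem_map.2 ⟨e1, he1, rfl⟩, rfl⟩)
    · obtain ⟨e1, he1, rfl⟩ := (hm1 _).1 he
      obtain ⟨e2, he2, rfl⟩ := (hm1 _).1 he'
      have h2 := hpos.inj _ (List.mem_map.2 ⟨e1.2.2, List.mem_map.2 ⟨e1, he1, rfl⟩, rfl⟩) _
        (List.mem_map.2 ⟨e2.2.2, List.mem_map.2 ⟨e2, he2, rfl⟩, rfl⟩) h1
      rw [hfinj e1 he1 e2 he2 h2]
  obtain ⟨h1, h2, h9⟩ := hG.inv_core (σ := a.sg) (σ' := a.sg ++ τ) hr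
    (List.prefix_append _ _) h.far h.cv h.atz h.own h.con hcvs hat (by
      rw [List.drop_left]; exact hup)
  refine ⟨c1, rfl, hcle, ⟨hr, ?_, h.m0.trans ham, ⟨m, hm, Mle.refl m⟩, h1, hat,
    cle_trans hcvs.uniq h.cle hcle, h9, h.tx, h.lst, h2⟩, hup⟩
  obtain ⟨t, h3, h4⟩ := h.far
  exact ⟨t, h3, h4.trans (hG.root_pfx hr.lv (List.prefix_append _ _))⟩

end Pool.Agent.Lib.MP_d48993_lc.Rem
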