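import Pool.Agent.Lib.MP_d48993_lc.AE.Rem.Fan

/-!
# Part R: MOVE (finding 4183, (R1.1))
-/

set_option autoImplicit false

namespace Pool.Agent.Lib.MP_d48993_lc.Rem

open Node
open Node.Proc (endd_append endd_snoc ch_end ch_append ch_pfx)

variable {V : ℕ → Prop} {u blk : ℕ → ℕ} {TB : List ℕ → Prop}

theorem ac_sub {S S' : List ℕ → Prop} (h : ∀ ν, S ν → S' ν) (hS : AC S') : AC S :=
  fun ν ν' h1 h2 h3 h4 h5 => hS ν ν' (h ν h1) (h ν' h2) h3 h4 h5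

theorem pfx_snoc {a b : List ℕ} {s : ℕ} (h : a <+: b ++ [s]) : a <+: b ∨ a = b ++ [s] := by
  rcases List.prefix_concat_iff.1 h with h1 | h1
  · exact Or.inr (by simpa using h1)
  · exact Or.inl h1

theorem Gr.rt_ps (_hG : Gr V u blk) {σ : List ℕ} (h : LV V σ) {x : St} (hx : Ps σ x) :
    Rt V u x.1 := by
  obtain ⟨s, h1, rfl⟩ := hx
  exact Or.inr ⟨s, h.2 s h1, rfl⟩

/-- One more symbol, into the next public root. -/
theorem Gr.reg_snoc (hG : Gr V u blk) {N t0 : ℕ} {p : List ℕ} {g : ℕ} {x0 : St}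
    (hp : Reg V u blk TB N p) (hg : V g) (hs : src g = endd o p) (ht : (tgt g).1 = u (t0 + 1))
    (h1 : u t0 ≤ (endd o p).1) (h2 : (endd o p).1 < u (t0 + 1)) (hx0 : x0.1 = u t0)
    (hx0' : Ps p x0) (hL : Lk blk TB t0 x0 (tgt g)) : Reg V u blk TB N (p ++ [g]) := by
  have he : endd o (p ++ [g]) = tgt g := endd_snoc _ _ _
  have hlv : LV V (p ++ [g]) := by
    refine ⟨?_, fun s h => ?_⟩
    · rw [he]
      exact ch_append.2 ⟨hp.lv.1, hs, rfl⟩
    · rcases List.mem_append.1 h with h3 | h3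
      · exact hp.lv.2 s h3
      · rw [List.mem_singleton.1 h3]; exact hg
  have hpg : Ps (p ++ [g]) (tgt g) := ⟨g, by simp, rfl⟩
  refine ⟨hlv, fun t h3 h4 => ?_, fun t x h3 h4 h5 => ?_, fun t x y h3 h4 h5 h6 h7 => ?_,
    fun t x v h3 h4 h5 h6 h7 h8 => ?_⟩
  · rw [he, ht] at h4
    by_cases h5 : t ≤ t0
    · have h6 := hG.ule h5
      obtain ⟨x, h7, h8⟩ := hp.pass t h3 (by omega)
      exact ⟨x, h7, ps_append.2 (Or.inl h8)⟩
    · have h6 : t = t0 + 1 := by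
        by_contra h7
        have := hG.ulm (show t0 + 1 < t by omega)
        omega
      subst h6
      exact ⟨tgt g, ht, hpg⟩
  · rcases ps_append.1 h5 with h6 | ⟨s, h6, h7⟩
    · exact hp.dep t x h3 h4 h6
    · rw [List.mem_singleton.1 h6] at h7
      rw [← h7, ht] at h4
      have h8 := hG.uinj h4
      subst h8
      rw [← h7]
      exact ⟨hL.ly0, hL.ly⟩
  · rcases ps_append.1 h7 with h8 | ⟨s, h8, h9⟩
    · refine hp.link t x y h3 h4 h5 (hG.ps_back hlv h6 ?_) h8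
      have h10 := hG.ps_le hp.lv h8
      have h11 := hG.umono t
      omega
    · rw [List.mem_singleton.1 h8] at h9
      rw [← h9, ht] at h5
      have h10 := hG.uinj h5
      have h11 : t = t0 := by omega
      subst h11
      have h12 := hG.ps_uniq hlv h6 (ps_append.2 (Or.inl hx0')) (h4.trans hx0.symm)
      rw [h12, ← h9]
      exact hL
  · rcases ps_append.1 h6 with h9 | ⟨s, h9, h10⟩
    · refine hp.cln t x v h3 h4 (hG.ps_back hlv h5 ?_) h9 h7 h8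
      have := hG.ps_le hp.lv h9
      omega
    · rw [List.mem_singleton.1 h9] at h10
      rw [← h10, ht] at h8
      rw [← h10, ht] at h7
      have h11 := hG.ult h8
      have h12 : t = t0 + 1 := by
        by_contra h13
        have := hG.ulm (show t0 + 1 < t by omega)
        omega
      subst h12
      rw [hG.ps_uniq hlv h6 h5 (by rw [← h10, ht, h4])]
      exact Lv.refl x

/-- The conditions move to the next public root. -/
theorem Gr.move1 (hG : Gr V u blk) (hA : AccV V u) {N : ℕ} {T : List ℕ → Prop} {c : Cnd3}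
    {z y Z1 : St} {t0 : ℕ} (hc : CVr V u blk TB N T c) (hz : At z c) (h1 : u t0 ≤ z.1)
    (h2 : z.1 < u (t0 + 1)) (hy : y.1 = u t0) (hys : ∀ e ∈ c.2, ∃ i, Ps e.2.2 (ow y i))
    (hyd : y.2.length + 1 ≤ blk t0) (hZ : Z1.1 = u (t0 + 1)) (hZa : ∀ b ∈ Z1.2, b < sz Z1.1)
    (hL : Lk blk TB t0 y Z1) : ∃ c' : Cnd3, CVr V u blk TB N T c' ∧ At Z1 c' ∧ c'.1 = c.1 ∧
      CLe T c c' ∧ (∀ e' ∈ c'.2, ∃ e ∈ c.2, e.2.2 <+: e'.2.2) ∧
      ∀ e' ∈ c'.2, ∃ i, 1 ≤ i ∧ Ps e'.2.2 (ow Z1 i) := by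
  have hu0 := hG.upos t0
  have hf : ∀ e : List ℕ × List ℕ × List ℕ, ∃ g : ℕ, e ∈ c.2 → V g ∧ Ex g = [] ∧
      src g = endd o e.2.2 ∧ ∃ i, 1 ≤ i ∧ endd o e.2.2 = ow z i ∧ tgt g = ow Z1 i := by
    intro e
    by_cases he : e ∈ c.2
    · obtain ⟨i, h3, h4⟩ := hz.en e he
      have h5 : Ps e.2.2 (ow z i) := by
        rw [← h4]
        refine ps_endd ?_
        rw [h4, ow_root]; omega
      have h6 := (hc.reg e he).lv
      have h7 := hG.adm_ps h6 h5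
      have h8 := hG.rt_ps h6 h5
      have h9 := (hL.own hyd 0 0).2
      have h10 := hG.szm (t0 + 1) z.1 h8 h2
      have h11 := (adm_of_own h7).2
      obtain ⟨g, h12, h13, h14, h15⟩ := hG.can (ow z i) (ow Z1 i) (t0 + 1) h7 h8 h2 (by
        refine ⟨?_, fun b hb => ?_⟩
        · rw [ow_len, ow_root, hZ]
          have := hG.big (t0 + 1)
          omega
        · rw [ow_root]
          rcases List.mem_append.1 hb with h | h
          · exact hZa b h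
          · rw [List.mem_singleton.1 h, hZ]
            omega) hZ (by rw [ow_len]; omega)
      exact ⟨g, fun _ => ⟨h12, h15, by rw [h13, h4], i, h3, h4, h14⟩⟩
    · exact ⟨0, fun h => (he h).elim⟩
  choose f hf using hf
  set c' : Cnd3 := (c.1, c.2.map fun e => (e.1, e.2.1, e.2.2 ++ [f e])) with hc'
  have hm : ∀ e', e' ∈ c'.2 ↔ ∃ e ∈ c.2, (e.1, e.2.1, e.2.2 ++ [f e]) = e' := by
    intro e'
    rw [hc']
    exact List.mem_map
  have hreg : ∀ e ∈ c.2, Reg V u blk TB N (e.2.2 ++ [f e]) := by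
    intro e he
    obtain ⟨h3, -, h4, i, -, h5, h6⟩ := hf e he
    obtain ⟨j, h7⟩ := hys e he
    refine hG.reg_snoc (t0 := t0) (x0 := ow y j) (hc.reg e he) h3 h4 ?_ ?_ ?_ hy h7 ?_
    · rw [h6]; exact hZ
    · rw [h5, ow_root]; exact h1
    · rw [h5, ow_root]; exact h2
    · rw [h6]
      exact (hL.own hyd j i).1
  have hacc : AC (fun ν => Nd c ν ∨ ∃ p ∈ c.2.map (fun e => (e.2.2, f e)), ν = p.1 ++ [p.2]) := by
    refine hA (Nd c) Z1 (t0 + 1) _ hZ hc.cvs.ac ?_ ?_ ?_ ?_ ?_ ?_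
    · obtain ⟨p, hp⟩ := hc.cvs.root
      exact ⟨_, hp, List.nil_prefix⟩
    · rintro ν ⟨e, he, h3⟩
      exact hG.lv_pfx (hc.reg e he).lv h3
    · rintro ν ν' h3 ⟨e, he, h4⟩
      exact ⟨e, he, h3.trans h4⟩
    · rintro ν ⟨e, he, h3⟩
      have h4 := hG.root_pfx (hc.reg e he).lv h3
      obtain ⟨i, -, h5⟩ := hz.en e he
      rw [h5, ow_root] at h4
      omega
    · intro p hp
      obtain ⟨e, he, rfl⟩ := List.mem_map.1 hp
      obtain ⟨h3, h3', h4, i, -, h5, h6⟩ := hf e he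
      exact ⟨⟨e, he, List.prefix_refl _⟩, h3, h3', h4, i, h6⟩
    · intro p hp p' hp' h7
      obtain ⟨e, he, rfl⟩ := List.mem_map.1 hp
      obtain ⟨e', he', rfl⟩ := List.mem_map.1 hp'
      obtain ⟨-, -, -, i, -, h5, h6⟩ := hf e he
      obtain ⟨-, -, -, i', -, h5', h6'⟩ := hf e' he'
      have h8 : ow Z1 i = ow Z1 i' := by rw [← h6, ← h6']; exact h7
      have h9 := hz.inj e he e' he' (by rw [h5, h5', ow_inj h8])
      rw [h9]
  refine ⟨c', ⟨⟨?_, ?_, ?_, ?_, ?_, ?_, ?_, ?_⟩, ?_⟩, ⟨?_, ?_⟩, rfl, ⟨?_, ?_, ?_, ?_⟩, ?_, ?_⟩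
  · obtain ⟨p, hp⟩ := hc.cvs.root
    exact ⟨_, (hm _).2 ⟨_, hp, rfl⟩⟩
  · intro e he e' he' h3
    obtain ⟨e1, he1, rfl⟩ := (hm _).1 he
    obtain ⟨e2, he2, rfl⟩ := (hm _).1 he'
    rw [hc.cvs.uniq e1 he1 e2 he2 h3]
  · intro e he
    obtain ⟨e1, he1, rfl⟩ := (hm _).1 he
    exact hc.cvs.mem e1 he1
  · intro e he
    obtain ⟨e1, he1, rfl⟩ := (hm _).1 he
    exact ⟨(hc.cvs.stem e1 he1).1.trans (List.prefix_append _ _), (hreg e1 he1).lv.1⟩
  · intro e he e' he'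
    obtain ⟨e1, he1, rfl⟩ := (hm _).1 he
    obtain ⟨e2, he2, rfl⟩ := (hm _).1 he'
    exact hc.cvs.emb e1 he1 e2 he2
  · intro e he e' he' h3
    obtain ⟨e1, he1, rfl⟩ := (hm _).1 he
    obtain ⟨e2, he2, rfl⟩ := (hm _).1 he'
    rcases pfx_snoc h3 with h4 | h4
    · exact hc.cvs.stemEmb e1 he1 e2 he2 h4
    · exfalso
      have h5 : e2.2.1 = e1.2.2 ++ [f e1] := h4
      have h6 := hG.root_pfx (hc.reg e2 he2).lv (hc.cvs.stem e2 he2).1
      obtain ⟨-, -, -, i, -, -, h7⟩ := hf e1 he1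
      obtain ⟨j, -, h8⟩ := hz.en e2 he2
      rw [h5, endd_snoc, h7, ow_root, h8, ow_root] at h6
      omega
  · intro e he h3
    obtain ⟨e1, he1, rfl⟩ := (hm _).1 he
    obtain ⟨e2, he2, h4⟩ := hc.cvs.parent e1 he1 h3
    exact ⟨_, (hm _).2 ⟨e2, he2, rfl⟩, h4⟩
  · refine ac_sub (fun ν h3 => ?_) hacc
    obtain ⟨e, he, h4⟩ := h3
    obtain ⟨e1, he1, rfl⟩ := (hm _).1 he
    rcases pfx_snoc h4 with h5 | h5
    · exact Or.inl ⟨e1, he1, h5⟩
    · exact Or.inr ⟨(e1.2.2, f e1), List.mem_map.2 ⟨e1, he1, rfl⟩, h5⟩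
  · intro e he
    obtain ⟨e1, he1, rfl⟩ := (hm _).1 he
    exact hreg e1 he1
  · intro e he
    obtain ⟨e1, he1, rfl⟩ := (hm _).1 he
    obtain ⟨-, -, -, i, h3, -, h4⟩ := hf e1 he1
    exact ⟨i, h3, by rw [endd_snoc]; exact h4⟩
  · intro e he e' he' h3
    obtain ⟨e1, he1, rfl⟩ := (hm _).1 he
    obtain ⟨e2, he2, rfl⟩ := (hm _).1 he'
    obtain ⟨-, -, -, i, -, h5, h4⟩ := hf e1 he1
    obtain ⟨-, -, -, i', -, h5', h4'⟩ := hf e2 he2
    rw [endd_snoc, endd_snoc, h4, h4'] at h3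
    have h9 := hz.inj e1 he1 e2 he2 (by rw [h5, h5', ow_inj h3])
    rw [h9]
  · exact List.prefix_refl _
  · intro e he
    exact ⟨_, List.prefix_append _ _, (hm _).2 ⟨e, he, rfl⟩⟩
  · intro e' he' h3
    obtain ⟨e1, he1, rfl⟩ := (hm _).1 he'
    exact (h3 e1 he1 rfl).elim
  · intro n hn
    simp [hc'] at hn
  · intro e' he'
    obtain ⟨e1, he1, rfl⟩ := (hm _).1 he'
    exact ⟨e1, he1, List.prefix_append _ _⟩
  · intro e' he'
    obtain ⟨e1, he1, rfl⟩ := (hm _).1 he'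
    obtain ⟨-, -, -, i, h3, -, h4⟩ := hf e1 he1
    exact ⟨i, h3, f e1, by simp, h4⟩

end Pool.Agent.Lib.MP_d48993_lc.Rem
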