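import Pool.Agent.Lib.MP_d48993_lc.AE.Rem.NbrA
import Pool.Agent.Lib.MP_d48993_lc.AE.Rem.Inst

/-!
# Module NBR: the lemma NE of part T is the lemma NE of part R
-/

set_option autoImplicit false

open Pool.Agent.Lib.MP_d48993_lc.Gr (Par Gph Prs VL us Lim4)

namespace Pool.Agent.Lib.MP_d48993_lc.Rem

open Node
open Node.Proc (endd_snoc)
open MP_8c048d_lc (pre join RecF Cop length_pre)
open Ind2 Tup
open Txt (mR ht opn Leg EndsR)

/-- Two states with the same condition. -/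
theorem at_uniq {z z' : St} {c : Cnd3} {T : List ℕ → Prop} (hc : CVs T c) (h : At z c)
    (h' : At z' c) : z = z' := by
  obtain ⟨p, hp⟩ := hc.root
  obtain ⟨i, -, h1⟩ := h.en _ hp
  obtain ⟨j, -, h2⟩ := h'.en _ hp
  exact (ow_inj' (h1.symm.trans h2)).1

section

variable {P : Par} {G : Gph} {s : ℕ}

theorem blk_lst (hP : P.Ok) {n : ℕ} (hn : 2 ≤ n) : Gr.blk P.p (Gr.lst P.p n) = n :=
  ((Gr.blkS P.p hP.pos).2.2.1 n hn).2.1

theorem lst_blk (hP : P.Ok) {t : ℕ} (h : Lb (Gr.blk P.p) t) :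
    Gr.lst P.p (Gr.blk P.p t + 1 - 1) = t := by
  obtain ⟨n, hn, rfl⟩ := (Inst.lb_iff hP).1 h
  rw [Nat.add_sub_cancel, blk_lst hP hn]

/-- Coned extensions of part R are coned extensions of part G. -/
theorem Con.gcon (h4 : Lim4 P G) (hs : s < P.p) {T : List ℕ → Prop} {Z : ℕ → St} {n n' : ℕ}
    {c c' : Cnd3}
    (h : Con (us G s) (Gr.blk P.p) P.TB T Z (Gr.lst P.p (n - 1)) (Gr.lst P.p (n' - 1)) c c')
    (hZ : ∀ r, (Z r).1 = us G s r) : Gr.Con P G s T n n' c c' := by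
  refine ⟨h.cle, Z, fun t => hZ t, Inst.at_iff.1 h.atz, Inst.at_iff.1 h.atz', fun t h1 h2 =>
    (Inst.lk_iff h4 hs (hZ t) (hZ (t + 1))).1 (h.lk t h1 h2), fun e he t h1 h2 => ?_⟩
  obtain ⟨i, h3, h5⟩ := h.way e he t h1 h2
  obtain ⟨ν, h6, -, h7⟩ := Inst.ps_iff.1 h5
  exact ⟨ν, i, h6, h3, h7⟩

/-- Commands of part R are commands of part T. -/
theorem pf_of (hP : P.Ok) (h4 : Lim4 P G) (hs : s < P.p) {hd : ℕ} {z : Txt.St3}
    (hz : Txt.PInv P G s hd z) {k : Cnd3} {z' : St} {t : ℕ}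
    (hk : Fm (VL G s) (us G s) (Gr.blk P.p) P.TB 0 (TE P.Tr z.E) (Txt.Le (P.Hd hd)) mR
      (ht (P.Hd hd) z.txt) z.c (Gr.lst P.p (z.stg - 1)) z' t k) :
    2 ≤ Gr.blk P.p t ∧ Txt.PF P G s hd z (Gr.blk P.p t + 1, z.E, k) := by
  have hG := Inst.gr hP h4 hs
  have h3 := hz.stg
  have h5 := hG.ble hk.con.1
  rw [blk_lst hP (show 2 ≤ z.stg - 1 by omega)] at h5
  have e := lst_blk hP hk.bs.lb
  refine ⟨by omega, rfl, ?_, ?_, ?_, hk.tx, ?_⟩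
  · show z.stg ≤ Gr.blk P.p t + 1
    omega
  · show Gr.CG P G s (P.Hd hd) (Gr.blk P.p t + 1) z.E k
    refine (Inst.base_iff hP h4 hs (by omega)).2 ⟨hk.tx.leg, z', ?_⟩
    rw [e]
    exact hk.bs
  · show Gr.Con P G s (TE P.Tr z.E) z.stg (Gr.blk P.p t + 1) z.c k
    obtain ⟨Z, h6, -, h7⟩ := hk.toCon hG
    refine Con.gcon h4 hs (Z := Z) ?_ h6
    rw [e]
    exact h7
  · obtain ⟨w, p, h6⟩ := hk.lst
    exact ⟨p, w, h6⟩

end

/-- Module NBR. -/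
theorem nbr : NbrStatement := by
  intro P hP G h4 s hs hd J H V φ U z m0 hφ hU hm0 hz ho hn
  have hG := Inst.gr hP h4 hs
  obtain ⟨hleg, zu, hB⟩ := (Inst.base_iff hP h4 hs hz.stg).1 hz.cg
  have hre := (Txt.reopen (T := P.Hd hd) (w := z.txt) (w' := z.txt) (q := [])
    (Txt.Le.rfl' hleg) (by rw [ho]; exact Txt.okR_none.2 rfl)).1
  refine ⟨zu, Gr.lst P.p (z.stg - 1), hB, hre, ?_, ?_⟩
  · intro k z' t hk m hm hle
    exact hn.E _ (pf_of hP h4 hs hz hk).2 m hm (lep_of_mle hle) k.1.length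
  · intro k z' t hk m hm hle n
    obtain ⟨hb, hpf⟩ := pf_of hP h4 hs hz hk
    have e := lst_blk hP hk.bs.lb
    obtain ⟨k', μ', j, a1, a2, a3, a4, a5, a6, a7, a8⟩ := hn.D _ hpf m hm (lep_of_mle hle) n
    have a1' : Gr.blk P.p t + 1 ≤ k'.stg := a1
    obtain ⟨-, z1, hB'⟩ := (Inst.base_iff hP h4 hs (by omega)).1 a3
    have a4' : Gr.Con P G s (TE P.Tr z.E) (Gr.blk P.p t + 1) k'.stg k k'.c := a4
    obtain ⟨p, hp⟩ := hk.bs.cv.cvs.root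
    obtain ⟨Z, hZ⟩ := Inst.con hP h4 hs (by omega) a1' a4' ⟨_, hp, rfl⟩ hB'.cv.cvs
    rw [e] at hZ
    have e1 : Z t = z' := at_uniq hk.bs.cv.cvs hZ.atz hk.bs.atz
    have e2 : Z (Gr.lst P.p (k'.stg - 1)) = z1 := at_uniq hB'.cv.cvs hZ.atz' hB'.atz
    refine ⟨k'.c, Z, Gr.lst P.p (k'.stg - 1), μ', e1, hZ, by rw [e2]; exact hB', a5, a6,
      mle_of_lep hm.1 a6.1 a7, a8.trans ?_⟩
    have h1 := hφ _ _ (mo_cut (P := P) (J := J) (H := H) (V := V) hP.pos (o := s) (by omega)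
      (by simp [Prs, hs]) j μ' k'.txt)
    exact h1.length_le

end Pool.Agent.Lib.MP_d48993_lc.Rem
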