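import Pool.Agent.Lib.MP_d48993_lc.AE.Rem.FinI
import Pool.Agent.Lib.MP_d48993_lc.AE.Rem.FmCon

/-!
# Module NBR: the string of a condition depends only on short initial segments
-/

set_option autoImplicit false

open Pool.Agent.Lib.MP_d48993_lc.Gr (Par Gph Prs fj jn tlen)

namespace Pool.Agent.Lib.MP_d48993_lc.Rem

open Node
open MP_8c048d_lc (pre join RecF Cop length_pre)
open Ind2 Tup

theorem fj_le {P : Par} {H : ℕ} (hp : 0 < P.p) {τ τ' : List (List ℕ)}
    (h : ∀ c < P.p + P.q, Prs P H c = true → ∀ i < tlen P H τ,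
      i < (τ'.getD c []).length ∧ (τ.getD c []).getD i 0 = (τ'.getD c []).getD i 0) :
    fj P H τ <+: fj P H τ' := by
  have h1 : tlen P H τ ≤ tlen P H τ' := (le_tlen hp _ _).2 fun c hc h2 => by
    by_contra h3
    have := (h c hc h2 (τ'.getD c []).length (by omega)).1
    omega
  have h2 : fj P H τ = (fj P H τ').take ((P.p + P.q) * tlen P H τ) := by
    unfold fj
    rw [← List.map_take, List.take_range, min_eq_left (Nat.mul_le_mul_left _ h1)]
    refine List.map_congr_left fun n hn => ?_
    rw [List.mem_range] at hn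
    have hN : 0 < P.p + P.q := by omega
    have h3 : n % (P.p + P.q) < P.p + P.q := Nat.mod_lt _ hN
    have h4 : n / (P.p + P.q) < tlen P H τ := by
      rw [Nat.div_lt_iff_lt_mul hN, mul_comm]
      exact hn
    split_ifs with h5
    · exact (h _ h3 h5 _ h4).2
    · rfl
  rw [h2]
  exact List.take_prefix _ _

/-- Only the places below the length of the column `o` are used. -/
theorem mo_cut {P : Par} {J : ℕ → Bool} {H : ℕ} {V : ℕ → ℕ → ℕ} (hp : 0 < P.p) {o : ℕ}
    (ho : o < P.p + P.q) (hO : Prs P H o = true) (j : ℕ) (μ : List (List ℕ)) (w : List ℕ) :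
    mo P J H V j μ o w <+: mo P J H V w.length μ o w := by
  have h0 := (le_tlen (H := H) hp (colo P J H V j μ o w) _).1 le_rfl
  have h1 : tlen P H (colo P J H V j μ o w) ≤ w.length := by
    have := h0 o ho hO
    rwa [getD_colo _ _ _ _ ho, if_pos rfl] at this
  refine fj_le hp fun c hc h2 i hi => ?_
  have h3 := h0 c hc h2
  rw [getD_colo _ _ _ _ hc] at h3 ⊢
  rw [getD_colo _ _ _ _ hc]
  by_cases h4 : c = o
  · rw [if_pos h4, if_pos h4]
    exact ⟨by omega, rfl⟩
  · rw [if_neg h4] at h3 ⊢
    rw [if_neg h4]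
    by_cases h5 : Gr.Tx P J H c = true
    · rw [if_pos h5] at h3 ⊢
      rw [if_pos h5]
      rw [length_pre] at h3
      rw [length_pre]
      refine ⟨by omega, ?_⟩
      rw [List.getD_eq_getElem?_getD, List.getD_eq_getElem?_getD, MP_8c048d_lc.pre_getElem?,
        MP_8c048d_lc.pre_getElem?, if_pos (by omega), if_pos (by omega)]
    · rw [if_neg h5] at h3 ⊢
      rw [if_neg h5]
      exact ⟨by omega, rfl⟩

end Pool.Agent.Lib.MP_d48993_lc.Rem
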