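import Pool.Agent.Lib.MP_d48993_lc.AE.Rem.Comp
import Pool.Agent.Lib.MP_d48993_lc.AE.Rem.Step
import Pool.Agent.Lib.MP_d48993_lc.AE.Node.Proc

/-!
# Part R: the oracle and the generic reals
-/

set_option autoImplicit false

namespace Pool.Agent.Lib.MP_d48993_lc.Rem

open Node
open Node.Proc (pre_pfx eq_pre)
open MP_8c048d_lc (pre join RecF Cop)

/-- The column `i` of `G`. -/
def Cl (G : ℕ → ℕ) (i : ℕ) : ℕ → ℕ := fun n => G (Nat.pair i n)

/-- `m` consists of initial segments of the columns of `G`. -/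
def In (m : List (List ℕ)) (G : ℕ → ℕ) : Prop :=
  ∀ i ∈ List.range m.length, m.getD i [] = pre (Cl G i) (m.getD i []).length

/-- `G` decides the set `D` of conditions. -/
def DecG (Q : List (List ℕ) → Prop) (G : ℕ → ℕ) (D : List (List ℕ) → Prop) : Prop :=
  ∃ m, Q m ∧ In m G ∧ (D m ∨ ∀ m', Q m' → Mle m m' → ¬ D m')

/-- `(O, G)` decides the set `D` of conditions. -/
def DecP (P : List ℕ → Prop) (Q : List (List ℕ) → Prop) (O G : ℕ → ℕ)
    (D : List ℕ → List (List ℕ) → Prop) : Prop :=
  ∃ σ m, P σ ∧ σ = pre O σ.length ∧ Q m ∧ In m G ∧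
    (D σ m ∨ ∀ σ' m', P σ' → σ <+: σ' → Q m' → Mle m m' → ¬ D σ' m')

variable {α : Type} [Primcodable α]

theorem recF_col : RecF (fun (p : ℕ × ℕ) (F : ℕ → ℕ) => pre (Cl F p.1) p.2) := by
  refine RecF.pre' (Ψ := fun (i : ℕ) (F : ℕ → ℕ) (n : ℕ) => F (Nat.pair i n)) ?_
  exact RecF.at (f := fun p : ℕ × ℕ => Nat.pair p.1 p.2)
    (Primrec₂.natPair.comp Primrec.fst Primrec.snd).to_comp

theorem in_cop : Cop (fun (m : List (List ℕ)) F => In m F) := by
  refine Cop.ballL (P := fun (m : List (List ℕ)) (i : ℕ) (F : ℕ → ℕ) =>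
    m.getD i [] = pre (Cl F i) (m.getD i []).length) ?_
    (Primrec.list_range.to_comp.comp Computable.list_length)
  have c1 : Computable (fun p : List (List ℕ) × ℕ => p.1.getD p.2 []) :=
    comp_getD Computable.fst Computable.snd
  have h1 : RecF (fun (p : List (List ℕ) × ℕ) (F : ℕ → ℕ) =>
      (p.1.getD p.2 [], pre (Cl F p.2) (p.1.getD p.2 []).length)) := by
    refine RecF.pair (RecF.of_computable c1) ?_
    exact recF_col.comp₁ (f := fun p : List (List ℕ) × ℕ => (p.2, (p.1.getD p.2 []).length))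
      (Computable.snd.pair (Computable.list_length.comp c1))
  exact (Cop.of_recF h1 (Step2b.eqPair' (α := List ℕ))).congr fun p F => Iff.rfl

theorem mle_length {m m' : List (List ℕ)} (h : Mle m m') : m.length = m'.length :=
  ((mle_iff m m').1 h).1

/-- Initial segments of the same real. -/
theorem pfx_pre {O : ℕ → ℕ} {σ τ : List ℕ} (h1 : σ = pre O σ.length) (h2 : τ = pre O τ.length)
    (h : σ.length ≤ τ.length) : σ <+: τ := by
  rw [h1, h2]
  exact pre_pfx O h

theorem pre_of_pfx {O : ℕ → ℕ} {σ τ : List ℕ} (h : σ <+: τ) (h2 : τ = pre O τ.length) :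
    σ = pre O σ.length := eq_pre (G := O) (n := τ.length) (by rw [← h2]; exact h)

theorem in_mle {m m' : List (List ℕ)} {G : ℕ → ℕ} (h : Mle m m') (h' : In m' G) : In m G := by
  obtain ⟨h1, h2⟩ := (mle_iff m m').1 h
  intro i hi
  exact pre_of_pfx (h2 i hi) (h' i (by rw [← h1]; exact hi))

/-- The longer initial segments. -/
theorem merge {m m' : List (List ℕ)} {G : ℕ → ℕ} (h : In m G) (h' : In m' G)
    (hl : m.length = m'.length) : ∃ m'', In m'' G ∧ Mle m m'' ∧ Mle m' m'' := by
  set f : ℕ → List ℕ := fun i => pre (Cl G i) (max (m.getD i []).length (m'.getD i []).length)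
    with hf
  have hlen : ((List.range m.length).map f).length = m.length := by simp
  have hget : ∀ i ∈ List.range m.length, ((List.range m.length).map f).getD i [] = f i := by
    intro i hi
    have hi' : i < m.length := List.mem_range.1 hi
    rw [List.getD_eq_getElem?_getD, List.getElem?_map, List.getElem?_range hi']
    rfl
  have hfl : ∀ i, (f i).length = max (m.getD i []).length (m'.getD i []).length := fun i => by
    rw [hf]
    exact MP_8c048d_lc.length_pre _ _
  have hfp : ∀ i, f i = pre (Cl G i) (f i).length := fun i => by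
    rw [hfl i]
  refine ⟨(List.range m.length).map f, fun i hi => ?_, (mle_iff _ _).2 ⟨hlen.symm,
    fun i hi => ?_⟩, (mle_iff _ _).2 ⟨hl.symm.trans hlen.symm, fun i hi => ?_⟩⟩
  · rw [hlen] at hi
    rw [hget i hi]
    exact hfp i
  · rw [hget i hi]
    exact pfx_pre (h i hi) (hfp i) (by rw [hfl i]; exact le_max_left _ _)
  · rw [← hl] at hi
    rw [hget i hi]
    exact pfx_pre (h' i (by rw [← hl]; exact hi)) (hfp i) (by rw [hfl i]; exact le_max_right _ _)

end Pool.Agent.Lib.MP_d48993_lc.Rem
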